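import Mathlib

set_option autoImplicit false

open Polynomial Finset

namespace Pool.Agent.H635Z

/-! ### basic inequality -/

lemma key_pos (s b ρ : ℂ) (hs : 0 < s.im) (hb : 0 < b.im) (hρ : ρ.im ≤ 0) :
    0 < ((s - (starRingEnd ℂ) b) * ((b - ρ) / (s - ρ))).im := by
  have hsρ : s - ρ ≠ 0 := by
    intro h
    have := congrArg Complex.im h
    simp at this
    linarith
  have hn : 0 < Complex.normSq (s - ρ) := Complex.normSq_pos.mpr hsρ
  have e : (s - (starRingEnd ℂ) b) * ((b - ρ) / (s - ρ)) =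
      ((s - (starRingEnd ℂ) b) * ((b - ρ) * (starRingEnd ℂ) (s - ρ))) /
        ((Complex.normSq (s - ρ) : ℝ) : ℂ) := by
    rw [Complex.normSq_eq_conj_mul_self]
    have h2 : (starRingEnd ℂ) (s - ρ) ≠ 0 := (_root_.map_ne_zero _).mpr hsρ
    field_simp
  rw [e, Complex.div_ofReal_im]
  apply div_pos _ hn
  simp only [Complex.mul_im, Complex.mul_re, Complex.sub_re, Complex.sub_im, Complex.conj_re,
    Complex.conj_im]
  nlinarith [mul_pos hs hb, mul_nonneg hb.le (sq_nonneg (s.re - ρ.re)),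
    mul_nonneg hs.le (sq_nonneg (b.re - ρ.re)),
    mul_nonneg (neg_nonneg.mpr hρ) (sq_nonneg (s.re - b.re)),
    mul_pos (add_pos hs hb) (mul_pos (by linarith : 0 < s.im - ρ.im) (by linarith : 0 < b.im - ρ.im))]

lemma key_pos_real (s : ℂ) (b : ℝ) (ρ : ℂ) (hs : 0 ≤ s.im) (hρ : ρ.im < 0) (hsb : s ≠ b) :
    0 < ((s - (b : ℂ)) * (((b : ℂ) - ρ) / (s - ρ))).im := by
  have hsρ : s - ρ ≠ 0 := by
    intro h
    have := congrArg Complex.im h
    simp at this
    linarith
  have hn : 0 < Complex.normSq (s - ρ) := Complex.normSq_pos.mpr hsρ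
  have e : (s - (b : ℂ)) * (((b : ℂ) - ρ) / (s - ρ)) =
      ((s - (b : ℂ)) * (((b : ℂ) - ρ) * (starRingEnd ℂ) (s - ρ))) /
        ((Complex.normSq (s - ρ) : ℝ) : ℂ) := by
    rw [Complex.normSq_eq_conj_mul_self]
    have h2 : (starRingEnd ℂ) (s - ρ) ≠ 0 := (_root_.map_ne_zero _).mpr hsρ
    field_simp
  rw [e, Complex.div_ofReal_im]
  apply div_pos _ hn
  simp only [Complex.mul_im, Complex.mul_re, Complex.sub_re, Complex.sub_im, Complex.conj_re,
    Complex.conj_im, Complex.ofReal_re, Complex.ofReal_im]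
  have hE : 0 < s.im * (b - ρ.re) ^ 2 + (-ρ.im) * (s.re - b) ^ 2 +
      s.im * ((s.im - ρ.im) * (-ρ.im)) := by
    rcases eq_or_lt_of_le hs with h | h
    · have hne : s.re - b ≠ 0 := by
        intro h0
        apply hsb
        apply Complex.ext
        · simp; linarith
        · simp [← h]
      have : 0 < (-ρ.im) * (s.re - b) ^ 2 := mul_pos (by linarith) (by positivity)
      rw [← h]; linarith
    · have h1 : 0 ≤ s.im * (b - ρ.re) ^ 2 := by positivity
      have h2 : 0 ≤ (-ρ.im) * (s.re - b) ^ 2 := mul_nonneg (by linarith) (sq_nonneg _)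
      have h3 : 0 < s.im * ((s.im - ρ.im) * (-ρ.im)) :=
        mul_pos h (mul_pos (by linarith) (by linarith))
      linarith
  nlinarith [hE]

/-! ### logarithmic derivative bookkeeping -/

lemma sum_im_pos (w : ℂ) (f : ℂ → ℂ) (M : Multiset ℂ) (h : ∀ ρ ∈ M, 0 < (w * f ρ).im)
    (hM : M ≠ 0) : 0 < (w * (M.map f).sum).im := by
  induction M using Multiset.induction_on with
  | empty => exact absurd rfl hM
  | cons a M ih =>
    rw [Multiset.map_cons, Multiset.sum_cons, mul_add, Complex.add_im]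
    have h1 := h a (Multiset.mem_cons_self a M)
    by_cases h0 : M = 0
    · subst h0; simpa using h1
    · have := ih (fun ρ hρ => h ρ (Multiset.mem_cons_of_mem hρ)) h0
      linarith

lemma sum_im_nonneg (w : ℂ) (f : ℂ → ℂ) (M : Multiset ℂ) (h : ∀ ρ ∈ M, 0 < (w * f ρ).im) :
    0 ≤ (w * (M.map f).sum).im := by
  by_cases hM : M = 0
  · subst hM; simp
  · exact (sum_im_pos w f M h hM).le

lemma sum_polar (s b : ℂ) (M : Multiset ℂ) (h : ∀ ρ ∈ M, s ≠ ρ) :
    (M.map (fun ρ => (b - ρ) / (s - ρ))).sum =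
      (Multiset.card M : ℂ) + (b - s) * (M.map (fun ρ => 1 / (s - ρ))).sum := by
  induction M using Multiset.induction_on with
  | empty => simp
  | cons a M ih =>
    rw [Multiset.map_cons, Multiset.sum_cons, Multiset.map_cons, Multiset.sum_cons,
      ih (fun ρ hρ => h ρ (Multiset.mem_cons_of_mem hρ)), Multiset.card_cons]
    have h1 : s - a ≠ 0 := sub_ne_zero.mpr (h a (Multiset.mem_cons_self a M))
    push_cast
    field_simp
    ring

lemma polar_eq (φ : ℂ[X]) (s b : ℂ) (h : φ.eval s ≠ 0) (m : ℕ) :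
    (m : ℂ) * φ.eval s + (b - s) * (derivative φ).eval s =
      φ.eval s * (((m : ℂ) - φ.natDegree) + (φ.roots.map (fun ρ => (b - ρ) / (s - ρ))).sum) := by
  have hs : φ.Splits := IsAlgClosed.splits φ
  have h1 := hs.eval_derivative_div_eval_of_ne_zero h
  have h0 : φ ≠ 0 := by rintro rfl; simp at h
  have h3 : ∀ ρ ∈ φ.roots, s ≠ ρ := by
    intro ρ hρ e
    rw [mem_roots h0, IsRoot.def, ← e] at hρ
    exact h hρ
  rw [sum_polar s b _ h3, ← h1, ← hs.natDegree_eq_card_roots]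
  field_simp
  ring

/-- polynomials of degree at most `m` with no zeros in the open upper half plane -/
def Sm (m : ℕ) (φ : ℂ[X]) : Prop := φ.natDegree ≤ m ∧ ∀ s : ℂ, 0 < s.im → φ.eval s ≠ 0

/-- the same for the closed upper half plane -/
def Tm (m : ℕ) (φ : ℂ[X]) : Prop := φ.natDegree ≤ m ∧ ∀ s : ℂ, 0 ≤ s.im → φ.eval s ≠ 0

noncomputable def op (m : ℕ) (x y z : ℂ) (φ : ℂ[X]) : ℂ[X] :=
  C y * (C (m : ℂ) * φ - X * derivative φ) + C (z * x) * derivative φ

lemma op_eval (m : ℕ) (x y z : ℂ) (φ : ℂ[X]) (s : ℂ) :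
    (op m x y z φ).eval s = y * (m * φ.eval s - s * (derivative φ).eval s) +
      z * x * (derivative φ).eval s := by
  simp [op]

lemma op_natDegree (m : ℕ) (x y z : ℂ) (φ : ℂ[X]) (h : φ.natDegree ≤ m + 1) :
    (op (m + 1) x y z φ).natDegree ≤ m := by
  rw [natDegree_le_iff_coeff_eq_zero]
  intro j hj
  have e : (op (m + 1) x y z φ).coeff j = y * ((((m + 1 : ℕ) : ℂ)) * φ.coeff j -
      (X * derivative φ).coeff j) + z * x * (derivative φ).coeff j := by
    simp only [op, coeff_add, coeff_C_mul, coeff_sub]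
  obtain ⟨i, rfl⟩ : ∃ i, j = i + 1 := ⟨j - 1, by omega⟩
  rw [e, coeff_X_mul, coeff_derivative, coeff_derivative]
  have h2 : φ.coeff (i + 1 + 1) = 0 := coeff_eq_zero_of_natDegree_lt (by omega)
  rw [h2]
  rcases Nat.lt_or_ge (m + 1) (i + 1) with h3 | h3
  · have h4 : φ.coeff (i + 1) = 0 := coeff_eq_zero_of_natDegree_lt (by omega)
    rw [h4]; ring
  · have : i = m := by omega
    subst this
    push_cast
    ring

lemma natDegree_cast_le (φ : ℂ[X]) (m : ℕ) (h : φ.natDegree ≤ m) (w : ℂ) (hw : 0 ≤ w.im) :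
    0 ≤ (w * ((m : ℂ) - φ.natDegree)).im := by
  have : ((m : ℂ) - φ.natDegree) = (((m : ℝ) - φ.natDegree : ℝ) : ℂ) := by push_cast; ring
  rw [this, Complex.im_mul_ofReal]
  have h2 : (φ.natDegree : ℝ) ≤ m := by exact_mod_cast h
  nlinarith

lemma Sm.op {m : ℕ} {φ : ℂ[X]} (h : Sm (m + 1) φ) (x y : ℝ) (hx : 0 < x) (hy : 0 < y) (z : ℂ)
    (hz : 0 < z.im) : Sm m (op (m + 1) x y z φ) := by
  refine ⟨op_natDegree m _ _ _ φ h.1, ?_⟩
  intro s hs h0
  rw [op_eval] at h0
  set b : ℂ := z * x / y with hb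
  have hy' : (y : ℂ) ≠ 0 := by exact_mod_cast hy.ne'
  have hbim : 0 < b.im := by
    have : b = z * ((x / y : ℝ) : ℂ) := by rw [hb]; push_cast; ring
    rw [this, Complex.im_mul_ofReal]
    positivity
  have e1 : (((m + 1 : ℕ) : ℂ)) * φ.eval s + (b - s) * (derivative φ).eval s = 0 := by
    have : (y : ℂ) * ((((m + 1 : ℕ) : ℂ)) * φ.eval s + (b - s) * (derivative φ).eval s) = 0 := by
      rw [← h0, hb]; field_simp; ring
    exact (mul_eq_zero.mp this).resolve_left hy'
  rw [polar_eq φ s b (h.2 s hs)] at e1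
  have e2 := (mul_eq_zero.mp e1).resolve_left (h.2 s hs)
  have hroots : ∀ ρ ∈ φ.roots, 0 < ((s - (starRingEnd ℂ) b) * ((b - ρ) / (s - ρ))).im := by
    intro ρ hρ
    apply key_pos s b ρ hs hbim
    by_contra hc
    push Not at hc
    have h0 : φ ≠ 0 := by rintro rfl; simp at hρ
    rw [mem_roots h0, IsRoot.def] at hρ
    exact h.2 ρ hc hρ
  have e3 := congrArg (fun t => ((s - (starRingEnd ℂ) b) * t).im) e2
  simp only [mul_add, Complex.add_im, mul_zero, Complex.zero_im] at e3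
  have hw : 0 < (s - (starRingEnd ℂ) b).im := by simp; linarith
  have h4 := natDegree_cast_le φ (m + 1) h.1 _ hw.le
  have h5 := sum_im_nonneg (s - (starRingEnd ℂ) b) (fun ρ => (b - ρ) / (s - ρ)) φ.roots hroots
  by_cases hr : φ.roots = 0
  · have hd : φ.natDegree = 0 := by
      rw [(IsAlgClosed.splits φ).natDegree_eq_card_roots, hr]; rfl
    rw [hr, hd] at e3
    simp only [Multiset.map_zero, Multiset.sum_zero, mul_zero, Complex.zero_im, add_zero,
      Nat.cast_zero, sub_zero] at e3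
    have : ((s - (starRingEnd ℂ) b) * (((m + 1 : ℕ) : ℂ))).im =
        (s - (starRingEnd ℂ) b).im * (m + 1) := by
      rw [show (((m + 1 : ℕ) : ℂ)) = ((m + 1 : ℝ) : ℂ) by push_cast; ring, Complex.im_mul_ofReal]
    rw [this] at e3
    have : 0 < (s - (starRingEnd ℂ) b).im * ((m : ℝ) + 1) := by positivity
    linarith
  · have h6 := sum_im_pos (s - (starRingEnd ℂ) b) (fun ρ => (b - ρ) / (s - ρ)) φ.roots hroots hr
    linarith

lemma Tm.op {m : ℕ} {φ : ℂ[X]} (h : Tm (m + 1) φ) (x : ℝ) :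
    Tm m (op (m + 1) x 1 1 φ) := by
  refine ⟨op_natDegree m _ _ _ φ h.1, ?_⟩
  intro s hs h0
  rw [op_eval] at h0
  have e1 : (((m + 1 : ℕ) : ℂ)) * φ.eval s + ((x : ℂ) - s) * (derivative φ).eval s = 0 := by
    rw [← h0]; ring
  by_cases hsx : s = x
  · rw [hsx] at e1
    simp only [sub_self, zero_mul, add_zero] at e1
    rcases mul_eq_zero.mp e1 with h1 | h1
    · exact absurd h1 (Nat.cast_ne_zero.mpr (by omega))
    · exact h.2 (x : ℂ) (by simp) h1
  rw [polar_eq φ s x (h.2 s hs)] at e1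
  have e2 := (mul_eq_zero.mp e1).resolve_left (h.2 s hs)
  have hroots : ∀ ρ ∈ φ.roots, 0 < ((s - (x : ℂ)) * (((x : ℂ) - ρ) / (s - ρ))).im := by
    intro ρ hρ
    apply key_pos_real s x ρ hs _ hsx
    by_contra hc
    push Not at hc
    have h0 : φ ≠ 0 := by rintro rfl; simp at hρ
    rw [mem_roots h0, IsRoot.def] at hρ
    exact h.2 ρ hc hρ
  have e3 := congrArg (fun t => ((s - (x : ℂ)) * t).im) e2
  simp only [mul_add, Complex.add_im, mul_zero, Complex.zero_im] at e3
  have hw : 0 ≤ (s - (x : ℂ)).im := by simpa using hs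
  have h4 := natDegree_cast_le φ (m + 1) h.1 _ hw
  by_cases hr : φ.roots = 0
  · have hd : φ.natDegree = 0 := by
      rw [(IsAlgClosed.splits φ).natDegree_eq_card_roots, hr]; rfl
    rw [hr, hd] at e2
    simp only [Multiset.map_zero, Multiset.sum_zero, add_zero, Nat.cast_zero, sub_zero] at e2
    exact absurd e2 (Nat.cast_ne_zero.mpr (by omega))
  · have h6 := sum_im_pos (s - (x : ℂ)) (fun ρ => ((x : ℂ) - ρ) / (s - ρ)) φ.roots hroots hr
    linarith

/-- first (complex) step of the strict version -/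
lemma first_step {m : ℕ} (W : ℝ[X]) (hd : W.natDegree ≤ m + 1)
    (hW : ∀ s : ℂ, aeval s W = 0 → s.im = 0)
    (hsimple : ∀ s : ℝ, W.eval s = 0 → (derivative W).eval s ≠ 0) :
    Tm m (op (m + 1) Complex.I 1 1 (W.map (algebraMap ℝ ℂ))) := by
  have hdeg : (W.map (algebraMap ℝ ℂ)).natDegree ≤ m + 1 := (natDegree_map_le).trans hd
  have hS : Sm (m + 1) (W.map (algebraMap ℝ ℂ)) := by
    refine ⟨hdeg, ?_⟩
    intro s hs h0
    rw [eval_map_algebraMap] at h0
    have := hW s h0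
    linarith
  refine ⟨op_natDegree m _ _ _ _ hdeg, ?_⟩
  intro s hs
  rcases eq_or_lt_of_le hs with h | h
  · -- real point
    intro h0
    rw [op_eval] at h0
    obtain ⟨x, rfl⟩ : ∃ x : ℝ, s = x := ⟨s.re, by apply Complex.ext <;> simp [← h]⟩
    have hr : ∀ Q : ℝ[X], aeval (x : ℂ) Q = ((Q.eval x : ℝ) : ℂ) := fun Q =>
      aeval_algebraMap_apply_eq_algebraMap_eval x Q
    rw [derivative_map, eval_map_algebraMap, eval_map_algebraMap, hr, hr] at h0
    have him := congrArg Complex.im h0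
    have hre := congrArg Complex.re h0
    simp at him hre
    rw [him] at hre
    have hW0 : W.eval x = 0 := by
      have : ((m : ℝ) + 1) ≠ 0 := by positivity
      simpa [this] using hre
    exact hsimple x hW0 him
  · have := (hS.op 1 1 one_pos one_pos Complex.I (by simp)).2 s h
    intro h0
    apply this
    rw [op_eval] at h0 ⊢
    rw [← h0]
    push_cast
    ring

end Pool.Agent.H635Z
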