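import Pool.Agent.H635Z.A

set_option autoImplicit false

open Polynomial Finset

namespace Pool.Agent.H635Z

/-- value of the Szego composition -/
noncomputable def cv (N : ℕ) (W r : ℂ[X]) (z : ℂ) : ℂ :=
  ∑ j ∈ range (N + 1), W.coeff j * r.coeff j * (-z) ^ j / (N.choose j : ℂ)

lemma cv_step (N : ℕ) (W r : ℂ[X]) (x y z : ℂ) (hr : r.natDegree ≤ N) :
    cv (N + 1) W ((C y - C x * X) * r) z = (1 / ((N : ℂ) + 1)) * cv N (op (N + 1) x y z W) r z := by
  have hN : ((N : ℂ) + 1) ≠ 0 := by exact_mod_cast Nat.succ_ne_zero N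
  have hc : ∀ j, ((C y - C x * X) * r).coeff j = y * r.coeff j - x * (X * r).coeff j := by
    intro j
    rw [sub_mul, coeff_sub, coeff_C_mul, mul_assoc, coeff_C_mul]
  have hop : ∀ i, (op (N + 1) x y z W).coeff i = y * (((N : ℂ) + 1 - i) * W.coeff i) +
      z * x * ((i + 1) * W.coeff (i + 1)) := by
    intro i
    have e : (op (N + 1) x y z W).coeff i = y * ((((N + 1 : ℕ) : ℂ)) * W.coeff i -
        (X * derivative W).coeff i) + z * x * (derivative W).coeff i := by
      simp only [op, coeff_add, coeff_C_mul, coeff_sub]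
    rw [e, coeff_derivative]
    rcases i with _ | i
    · simp
    · rw [coeff_X_mul, coeff_derivative]
      push_cast
      ring
  unfold cv
  simp only [hc, hop]
  have hA : ∑ j ∈ range (N + 1 + 1), W.coeff j * (y * r.coeff j - x * (X * r).coeff j) *
        (-z) ^ j / ((N + 1).choose j : ℂ) =
      ∑ j ∈ range (N + 1 + 1), W.coeff j * (y * r.coeff j) * (-z) ^ j / ((N + 1).choose j : ℂ) -
      ∑ j ∈ range (N + 1 + 1), W.coeff j * (x * (X * r).coeff j) * (-z) ^ j /
        ((N + 1).choose j : ℂ) := by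
    rw [← sum_sub_distrib]
    apply sum_congr rfl
    intro j _
    ring
  rw [hA, sum_range_succ (fun j => W.coeff j * (y * r.coeff j) * (-z) ^ j /
      ((N + 1).choose j : ℂ)) (N + 1),
    sum_range_succ' (fun j => W.coeff j * (x * (X * r : ℂ[X]).coeff j) *
      (-z) ^ j / ((N + 1).choose j : ℂ)) (N + 1)]
  have h1 : r.coeff (N + 1) = 0 := coeff_eq_zero_of_natDegree_lt (by omega)
  rw [h1, coeff_X_mul_zero]
  simp only [coeff_X_mul, mul_zero, zero_mul, zero_div, add_zero]
  rw [← sum_sub_distrib, mul_sum]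
  apply sum_congr rfl
  intro i hi
  have hi' : i ≤ N := by simpa [Nat.lt_succ_iff] using hi
  have c0 : (N.choose i : ℂ) ≠ 0 := by exact_mod_cast (Nat.choose_pos hi').ne'
  have c1 : ((N + 1).choose i : ℂ) ≠ 0 := by exact_mod_cast (Nat.choose_pos (by omega)).ne'
  have c2 : ((N + 1).choose (i + 1) : ℂ) ≠ 0 := by
    exact_mod_cast (Nat.choose_pos (by omega)).ne'
  have k1 : (N.choose i : ℂ) * (N + 1) = ((N + 1).choose i : ℂ) * ((N : ℂ) + 1 - i) := by
    have := Nat.choose_mul_succ_eq N i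
    have h2 : ((N + 1 - i : ℕ) : ℂ) = (N : ℂ) + 1 - i := by
      rw [Nat.cast_sub (by omega)]; push_cast; ring
    rw [← h2]
    exact_mod_cast this
  have k2 : ((N : ℂ) + 1) * (N.choose i : ℂ) = ((N + 1).choose (i + 1) : ℂ) * ((i : ℂ) + 1) := by
    exact_mod_cast Nat.add_one_mul_choose_eq N i
  have e1 : W.coeff i * (y * r.coeff i) * (-z) ^ i / ((N + 1).choose i : ℂ) =
      1 / ((N : ℂ) + 1) * (y * (((N : ℂ) + 1 - i) * W.coeff i) * r.coeff i * (-z) ^ i /
        (N.choose i : ℂ)) := by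
    field_simp
    linear_combination (W.coeff i * y * r.coeff i * (-z) ^ i) * k1
  have e2 : W.coeff (i + 1) * (x * r.coeff i) * (-z) ^ (i + 1) / ((N + 1).choose (i + 1) : ℂ) =
      - (1 / ((N : ℂ) + 1) * (z * x * ((i + 1) * W.coeff (i + 1)) * r.coeff i * (-z) ^ i /
        (N.choose i : ℂ))) := by
    rw [pow_succ]
    field_simp
    linear_combination (-W.coeff (i + 1) * x * r.coeff i * (-z) ^ i * z) * k2
  rw [e1, e2]
  ring

/-- product of linear factors -/
noncomputable def rp (L : List (ℂ × ℂ)) : ℂ[X] := (L.map (fun p => C p.2 - C p.1 * X)).prod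

lemma rp_cons (p : ℂ × ℂ) (L : List (ℂ × ℂ)) : rp (p :: L) = (C p.2 - C p.1 * X) * rp L := by
  simp [rp]

lemma rp_natDegree (L : List (ℂ × ℂ)) : (rp L).natDegree ≤ L.length := by
  induction L with
  | nil => simp [rp]
  | cons p L ih =>
    rw [rp_cons, List.length_cons]
    refine (natDegree_mul_le).trans ?_
    have : (C p.2 - C p.1 * X : ℂ[X]).natDegree ≤ 1 := by
      refine (natDegree_sub_le _ _).trans ?_
      simp only [natDegree_C, zero_le, sup_of_le_right]
      exact (natDegree_C_mul_le _ _).trans natDegree_X_le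
    omega

lemma cv_pos (z : ℂ) (hz : 0 < z.im) (L : List (ℂ × ℂ))
    (hL : ∀ p ∈ L, ∃ x y : ℝ, 0 < x ∧ 0 < y ∧ p = ((x : ℂ), (y : ℂ))) :
    ∀ φ : ℂ[X], Sm L.length φ → cv L.length φ (rp L) z ≠ 0 := by
  induction L with
  | nil =>
    intro φ hφ
    have h1 := hφ.2 Complex.I (by simp)
    have h2 : φ.coeff 0 ≠ 0 := by
      rw [eq_C_of_natDegree_le_zero hφ.1] at h1
      simpa using h1
    simpa [cv, rp] using h2
  | cons p L ih =>
    intro φ hφ
    obtain ⟨x, y, hx, hy, rfl⟩ := hL p List.mem_cons_self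
    rw [rp_cons, List.length_cons, cv_step _ _ _ _ _ _ (rp_natDegree L)]
    apply mul_ne_zero
    · have : ((L.length : ℂ) + 1) ≠ 0 := by exact_mod_cast Nat.succ_ne_zero L.length
      exact one_div_ne_zero this
    · exact ih (fun q hq => hL q (List.mem_cons_of_mem _ hq)) _ (hφ.op x y hx hy z hz)

lemma cv_strict (L : List (ℂ × ℂ))
    (hL : ∀ p ∈ L, ∃ x : ℝ, p = ((x : ℂ), (1 : ℂ))) :
    ∀ φ : ℂ[X], Tm L.length φ → cv L.length φ (rp L) 1 ≠ 0 := by
  induction L with
  | nil =>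
    intro φ hφ
    have h1 := hφ.2 0 (by simp)
    have h2 : φ.coeff 0 ≠ 0 := by
      rw [eq_C_of_natDegree_le_zero hφ.1] at h1
      simpa using h1
    simpa [cv, rp] using h2
  | cons p L ih =>
    intro φ hφ
    obtain ⟨x, rfl⟩ := hL p List.mem_cons_self
    rw [rp_cons, List.length_cons, cv_step _ _ _ _ _ _ (rp_natDegree L)]
    apply mul_ne_zero
    · have : ((L.length : ℂ) + 1) ≠ 0 := by exact_mod_cast Nat.succ_ne_zero L.length
      exact one_div_ne_zero this
    · exact ih (fun q hq => hL q (List.mem_cons_of_mem _ hq)) _ (hφ.op x)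

/-- real-rooted in terms of complex zeros -/
lemma splits_of_real (φ : ℝ[X]) (h : ∀ z : ℂ, aeval z φ = 0 → z.im = 0) : φ.Splits := by
  apply Splits.of_splits_map (algebraMap ℝ ℂ) (IsAlgClosed.splits _)
  intro a ha
  have h0 : φ.map (algebraMap ℝ ℂ) ≠ 0 := by rintro h1; simp [h1] at ha
  rw [mem_roots h0, IsRoot.def, eval_map_algebraMap] at ha
  have := h a ha
  exact ⟨a.re, by apply Complex.ext <;> simp [this]⟩

lemma real_of_splits (φ : ℝ[X]) (h : φ.Splits) (h0 : φ ≠ 0) (z : ℂ) (hz : aeval z φ = 0) :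
    z.im = 0 := by
  have h1 : (φ.map (algebraMap ℝ ℂ)).IsRoot z := by rwa [IsRoot.def, eval_map_algebraMap]
  obtain ⟨x, hx⟩ := h.mem_range_of_isRoot h0 h1
  rw [← hx]; simp

lemma splits_of_upper (φ : ℝ[X]) (h : ∀ z : ℂ, 0 < z.im → aeval z φ ≠ 0) : φ.Splits := by
  apply splits_of_real
  intro z hz
  by_contra hne
  rcases lt_or_gt_of_ne hne with h1 | h1
  · refine h ((starRingEnd ℂ) z) (by simpa using h1) ?_
    rw [aeval_conj, hz, map_zero]
  · exact h z h1 hz

/-- monotonicity of the modulus in vertical direction -/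
lemma mono_of_splits (φ : ℝ[X]) (h : φ.Splits) (x y y' : ℝ) (h0 : 0 ≤ y') (h1 : y' ≤ y) :
    ‖aeval ((x : ℂ) + y' * Complex.I) φ‖ ≤ ‖aeval ((x : ℂ) + y * Complex.I) φ‖ := by
  have e : ∀ z : ℂ, aeval z φ = (φ.leadingCoeff : ℂ) *
      (φ.roots.map (fun a : ℝ => z - (a : ℂ))).prod := by
    intro z
    conv_lhs => rw [h.eq_prod_roots]
    rw [map_mul, aeval_C, map_multiset_prod, Multiset.map_map]
    congr 2
    apply Multiset.map_congr rfl
    intro a _
    simp
  rw [e, e, norm_mul, norm_mul]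
  apply mul_le_mul_of_nonneg_left _ (norm_nonneg _)
  generalize φ.roots = M
  induction M using Multiset.induction_on with
  | empty => simp
  | cons a M ih =>
    rw [Multiset.map_cons, Multiset.prod_cons, Multiset.map_cons, Multiset.prod_cons, norm_mul,
      norm_mul]
    apply mul_le_mul _ ih (norm_nonneg _) (norm_nonneg _)
    have k : ∀ t : ℝ, ‖((x : ℂ) + t * Complex.I) - (a : ℂ)‖ = Real.sqrt ((x - a) ^ 2 + t ^ 2) := by
      intro t
      rw [show ((x : ℂ) + t * Complex.I) - (a : ℂ) = ((x - a : ℝ) : ℂ) + (t : ℂ) * Complex.I by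
        push_cast; ring, Complex.norm_add_mul_I]
    rw [k, k]
    apply Real.sqrt_le_sqrt
    nlinarith

lemma splits_of_mono (φ : ℝ[X]) (h : ∀ x y y' : ℝ, 0 ≤ y' → y' ≤ y →
    ‖aeval ((x : ℂ) + y' * Complex.I) φ‖ ≤ ‖aeval ((x : ℂ) + y * Complex.I) φ‖) : φ.Splits := by
  by_cases h0 : φ = 0
  · rw [h0]; exact Splits.zero
  apply splits_of_upper
  intro z hz h1
  apply h0
  have h2 : ∀ t : ℝ, t ∈ Set.Icc (0 : ℝ) z.im → aeval ((z.re : ℂ) + t * Complex.I) φ = 0 := by
    intro t ht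
    have := h z.re z.im t ht.1 ht.2
    rw [Complex.re_add_im, h1, norm_zero] at this
    exact norm_le_zero_iff.mp this
  have h3 : (φ.map (algebraMap ℝ ℂ)) = 0 := by
    apply Polynomial.eq_zero_of_infinite_isRoot
    have hinj : Function.Injective (fun t : ℝ => (z.re : ℂ) + t * Complex.I) := by
      intro a b hab
      have := congrArg Complex.im hab
      simpa using this
    have hinf : (Set.Icc (0 : ℝ) z.im).Infinite := Set.Icc_infinite hz
    refine (hinf.image hinj.injOn).mono ?_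
    rintro _ ⟨t, ht, rfl⟩
    show IsRoot _ _
    rw [IsRoot.def, eval_map_algebraMap]
    exact h2 t ht
  exact (Polynomial.map_eq_zero_iff (algebraMap ℝ ℂ).injective).mp h3

/-- closedness of real-rootedness -/
lemma splits_of_tendsto {ι : Type*} {l : Filter ι} [l.NeBot] (F : ι → ℝ[X]) (φ : ℝ[X])
    (h : ∀ᶠ i in l, (F i).Splits)
    (hc : ∀ z : ℂ, Filter.Tendsto (fun i => aeval z (F i)) l (nhds (aeval z φ))) : φ.Splits := by
  apply splits_of_mono
  intro x y y' h0 h1
  apply le_of_tendsto_of_tendsto (hc _).norm (hc _).norm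
  filter_upwards [h] with i hi
  exact mono_of_splits (F i) hi x y y' h0 h1

end Pool.Agent.H635Z
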