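import Pool.Agent.H635Z.B

set_option autoImplicit false

open Polynomial Finset

namespace Pool.Agent.H635Z

/-! ### continuity of coefficients -/

def CC {T : Type*} [TopologicalSpace T] (F : T → ℝ[X]) : Prop :=
  ∀ j, Continuous fun t => (F t).coeff j

lemma CC.mul {T : Type*} [TopologicalSpace T] {F G : T → ℝ[X]} (hF : CC F) (hG : CC G) :
    CC (fun t => F t * G t) := by
  intro j
  simp only [coeff_mul]
  exact continuous_finsetSum _ (fun i _ => (hF i.1).mul (hG i.2))

lemma CC.prod {T ι : Type*} [TopologicalSpace T] (s : Finset ι) {F : ι → T → ℝ[X]}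
    (hF : ∀ i ∈ s, CC (F i)) : CC (fun t => ∏ i ∈ s, F i t) := by
  classical
  induction s using Finset.induction_on with
  | empty => intro j; simp only [prod_empty]; exact continuous_const
  | insert a s ha ih =>
    have : (fun t => ∏ i ∈ insert a s, F i t) = fun t => F a t * ∏ i ∈ s, F i t := by
      funext t; rw [prod_insert ha]
    rw [this]
    exact (hF a (mem_insert_self a s)).mul (ih (fun i hi => hF i (mem_insert_of_mem hi)))

lemma CC.lin {T : Type*} [TopologicalSpace T] {a b : T → ℝ} (ha : Continuous a)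
    (hb : Continuous b) : CC (fun t => C (a t) - C (b t) * X) := by
  intro j
  simp only [coeff_sub, coeff_C_mul]
  refine Continuous.sub ?_ (hb.mul continuous_const)
  simp only [coeff_C]
  split_ifs
  · exact ha
  · exact continuous_const

/-! ### real composition -/

noncomputable def comp (N : ℕ) (W r : ℝ[X]) : ℝ[X] :=
  ∑ j ∈ range (N + 1), C (W.coeff j * r.coeff j * (-1) ^ j / (N.choose j : ℝ)) * X ^ j

lemma aeval_comp (N : ℕ) (W r : ℝ[X]) (z : ℂ) :
    aeval z (comp N W r) = cv N (W.map (algebraMap ℝ ℂ)) (r.map (algebraMap ℝ ℂ)) z := by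
  unfold comp cv
  rw [map_sum]
  apply sum_congr rfl
  intro j _
  rw [map_mul, aeval_C, map_pow, aeval_X, coeff_map, coeff_map]
  simp only [Complex.coe_algebraMap]
  push_cast
  rw [show (-z) ^ j = (-1) ^ j * z ^ j by rw [← mul_pow]; ring]
  ring

lemma comp_add_right (N : ℕ) (W r r' : ℝ[X]) : comp N W (r + r') = comp N W r + comp N W r' := by
  unfold comp
  rw [← sum_add_distrib]
  apply sum_congr rfl
  intro j _
  rw [coeff_add, ← add_mul, ← C_add]
  congr 2
  ring

lemma comp_C_mul_right (N : ℕ) (W r : ℝ[X]) (a : ℝ) : comp N W (C a * r) = C a * comp N W r := by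
  unfold comp
  rw [mul_sum]
  apply sum_congr rfl
  intro j _
  rw [coeff_C_mul, ← mul_assoc (C a), ← C_mul]
  congr 2
  ring

lemma comp_add_left (N : ℕ) (W W' r : ℝ[X]) : comp N (W + W') r = comp N W r + comp N W' r := by
  unfold comp
  rw [← sum_add_distrib]
  apply sum_congr rfl
  intro j _
  rw [coeff_add, ← add_mul, ← C_add]
  congr 2
  ring

lemma rp_toList {ι : Type*} (s : Finset ι) (x y : ι → ℂ) :
    rp (s.toList.map (fun i => (x i, y i))) = ∏ i ∈ s, (C (y i) - C (x i) * X) := by
  unfold rp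
  rw [List.map_map]
  exact Finset.prod_map_toList s _

/-- composition with a product of positive linear factors -/
lemma comp_splits_pos {ι : Type*} (s : Finset ι) (x y : ι → ℝ) (hx : ∀ i ∈ s, 0 < x i)
    (hy : ∀ i ∈ s, 0 < y i) (W : ℝ[X]) (hW : W.Splits) (hd : W.natDegree ≤ s.card) :
    (comp s.card W (∏ i ∈ s, (C (y i) - C (x i) * X))).Splits := by
  by_cases hW0 : W = 0
  · have : comp s.card W (∏ i ∈ s, (C (y i) - C (x i) * X)) = 0 := by
      unfold comp; simp [hW0]
    rw [this]; exact Splits.zero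
  apply splits_of_upper
  intro z hz
  rw [aeval_comp]
  have e : (∏ i ∈ s, (C (y i) - C (x i) * X) : ℝ[X]).map (algebraMap ℝ ℂ) =
      rp (s.toList.map (fun i => (((x i : ℝ) : ℂ), ((y i : ℝ) : ℂ)))) := by
    rw [rp_toList, Polynomial.map_prod]
    apply prod_congr rfl
    intro i _
    simp
  rw [e]
  have hlen : s.card = (s.toList.map (fun i => (((x i : ℝ) : ℂ), ((y i : ℝ) : ℂ)))).length := by
    rw [List.length_map, length_toList]
  rw [hlen]
  apply cv_pos z hz
  · intro p hp
    rw [List.mem_map] at hp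
    obtain ⟨i, hi, rfl⟩ := hp
    have hi' : i ∈ s := by simpa using hi
    exact ⟨x i, y i, hx i hi', hy i hi', rfl⟩
  · rw [← hlen]
    refine ⟨natDegree_map_le.trans hd, ?_⟩
    intro t ht h0
    rw [eval_map_algebraMap] at h0
    have := real_of_splits W hW hW0 t h0
    linarith

/-- Polya-Schur-Szego -/
lemma comp_splits {ι : Type*} (s : Finset ι) (x y : ι → ℝ) (hx : ∀ i ∈ s, 0 ≤ x i)
    (hy : ∀ i ∈ s, 0 ≤ y i) (W : ℝ[X]) (hW : W.Splits) (hd : W.natDegree ≤ s.card) :
    (comp s.card W (∏ i ∈ s, (C (y i) - C (x i) * X))).Splits := by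
  have hcc : CC (fun ε : ℝ => ∏ i ∈ s, (C (y i + ε) - C (x i + ε) * X)) :=
    CC.prod s (fun i _ => CC.lin (continuous_const.add continuous_id)
      (continuous_const.add continuous_id))
  refine splits_of_tendsto (l := nhdsWithin (0 : ℝ) (Set.Ioi 0))
    (fun ε => comp s.card W (∏ i ∈ s, (C (y i + ε) - C (x i + ε) * X))) _ ?_ ?_
  · filter_upwards [self_mem_nhdsWithin] with ε hε
    have hε' : 0 < ε := hε
    exact comp_splits_pos s (fun i => x i + ε) (fun i => y i + ε)
      (fun i hi => by have := hx i hi; linarith)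
      (fun i hi => by have := hy i hi; linarith) W hW hd
  · intro z
    have hcont : Continuous (fun ε : ℝ =>
        aeval z (comp s.card W (∏ i ∈ s, (C (y i + ε) - C (x i + ε) * X)))) := by
      unfold comp
      simp only [map_sum, map_mul, aeval_C, map_pow, aeval_X, Complex.coe_algebraMap]
      apply continuous_finsetSum
      intro j _
      refine Continuous.mul (Complex.continuous_ofReal.comp ?_) continuous_const
      exact ((continuous_const.mul (hcc j)).mul continuous_const).div_const _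
    have := (hcont.tendsto 0).mono_left (nhdsWithin_le_nhds (s := Set.Ioi (0 : ℝ)))
    simpa using this

/-- strict version -/
lemma comp_strict {ι : Type*} (s : Finset ι) (a : ι → ℝ) (W : ℝ[X]) (hW : W.Splits)
    (hW0 : W ≠ 0) (hd : W.natDegree ≤ s.card + 1)
    (hsimple : ∀ t : ℝ, W.eval t = 0 → (derivative W).eval t ≠ 0)
    (h1 : (comp (s.card + 1) W (∏ i ∈ s, (1 - C (a i) * X))).eval 1 = 0)
    (h2 : (comp (s.card + 1) W (X * ∏ i ∈ s, (1 - C (a i) * X))).eval 1 = 0) : False := by
  have hfs := first_step (m := s.card) W hd (real_of_splits W hW hW0) hsimple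
  set L := s.toList.map (fun i => (((a i : ℝ) : ℂ), (1 : ℂ))) with hL
  have hlen : s.card = L.length := by
    rw [hL, List.length_map, length_toList]
  have e : (∏ i ∈ s, (1 - C (a i) * X) : ℝ[X]).map (algebraMap ℝ ℂ) = rp L := by
    rw [hL, rp_toList, Polynomial.map_prod]
    apply prod_congr rfl
    intro i _
    simp
  have h3 : cv L.length (op (s.card + 1) Complex.I 1 1 (W.map (algebraMap ℝ ℂ))) (rp L) 1 ≠ 0 := by
    apply cv_strict
    · intro p hp
      rw [hL, List.mem_map] at hp
      obtain ⟨i, _, rfl⟩ := hp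
      exact ⟨a i, rfl⟩
    · rw [← hlen]; exact hfs
  apply h3
  have hst := cv_step L.length (W.map (algebraMap ℝ ℂ)) (rp L) Complex.I 1 1 (rp_natDegree L)
  rw [hlen]
  have hN : ((L.length : ℂ) + 1) ≠ 0 := by exact_mod_cast Nat.succ_ne_zero L.length
  have h4 : cv (L.length + 1) (W.map (algebraMap ℝ ℂ)) ((C 1 - C Complex.I * X) * rp L) 1 = 0 := by
    have hlin : cv (L.length + 1) (W.map (algebraMap ℝ ℂ)) ((C 1 - C Complex.I * X) * rp L) 1 =
        cv (L.length + 1) (W.map (algebraMap ℝ ℂ)) (rp L) 1 -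
        Complex.I * cv (L.length + 1) (W.map (algebraMap ℝ ℂ)) (X * rp L) 1 := by
      unfold cv
      rw [mul_sum, ← sum_sub_distrib]
      apply sum_congr rfl
      intro j _
      have : ((C 1 - C Complex.I * X) * rp L).coeff j = (rp L).coeff j -
          Complex.I * (X * rp L).coeff j := by
        rw [sub_mul, coeff_sub, C_1, one_mul, mul_assoc, coeff_C_mul]
      rw [this]
      ring
    rw [hlin]
    have hr : ∀ Q : ℝ[X], aeval (1 : ℂ) Q = ((Q.eval 1 : ℝ) : ℂ) := fun Q => by
      have := aeval_algebraMap_apply_eq_algebraMap_eval (A := ℂ) (1 : ℝ) Q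
      simpa using this
    have e1 : cv (L.length + 1) (W.map (algebraMap ℝ ℂ)) (rp L) 1 = 0 := by
      rw [← e, ← aeval_comp, hr, ← hlen, h1]; simp
    have e2 : cv (L.length + 1) (W.map (algebraMap ℝ ℂ)) (X * rp L) 1 = 0 := by
      rw [← e, show (X * (∏ i ∈ s, (1 - C (a i) * X) : ℝ[X]).map (algebraMap ℝ ℂ) : ℂ[X]) =
        (X * ∏ i ∈ s, (1 - C (a i) * X) : ℝ[X]).map (algebraMap ℝ ℂ) by simp,
        ← aeval_comp, hr, ← hlen, h2]; simp
    rw [e1, e2]; simp
  rw [hst] at h4
  exact (mul_eq_zero.mp h4).resolve_left (one_div_ne_zero hN)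

/-! ### Laguerre inequality -/

noncomputable def Lg (φ : ℝ[X]) (x : ℝ) : ℝ :=
  (derivative φ).eval x ^ 2 - φ.eval x * (derivative (derivative φ)).eval x

lemma Lg_mul (a x : ℝ) (ψ : ℝ[X]) : Lg ((X - C a) * ψ) x = ψ.eval x ^ 2 + (x - a) ^ 2 * Lg ψ x := by
  unfold Lg
  simp only [derivative_mul, derivative_sub, derivative_X, derivative_C, derivative_add, eval_add,
    eval_mul, eval_sub, eval_X, eval_C, sub_zero, one_mul, derivative_one]
  ring

lemma Lg_C_mul (c x : ℝ) (ψ : ℝ[X]) : Lg (C c * ψ) x = c ^ 2 * Lg ψ x := by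
  unfold Lg
  simp only [derivative_C_mul, eval_mul, eval_C]
  ring

lemma Lg_nonneg (φ : ℝ[X]) (h : φ.Splits) (x : ℝ) : 0 ≤ Lg φ x := by
  rw [h.eq_prod_roots, Lg_C_mul]
  apply mul_nonneg (sq_nonneg _)
  generalize φ.roots = M
  induction M using Multiset.induction_on with
  | empty => simp [Lg]
  | cons a M ih =>
    rw [Multiset.map_cons, Multiset.prod_cons, Lg_mul]
    positivity

lemma Lg_pos (φ : ℝ[X]) (h : φ.Splits) (x : ℝ) (hx : φ.eval x ≠ 0) (hd : φ.natDegree ≠ 0) :
    0 < Lg φ x := by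
  have h0 : φ ≠ 0 := by rintro rfl; simp at hx
  obtain ⟨a, ha⟩ := h.exists_eval_eq_zero (by
    intro hdeg; exact hd (natDegree_eq_of_degree_eq_some hdeg))
  obtain ⟨ψ, rfl⟩ := dvd_iff_isRoot.mpr (show IsRoot φ a from ha)
  rw [Lg_mul]
  have h1 : ψ.eval x ≠ 0 := by
    intro h1; apply hx; rw [eval_mul, h1, mul_zero]
  have h2 : ψ.Splits := by
    have hψ : ψ ≠ 0 := by rintro rfl; simp at h0
    exact ((splits_mul (X_sub_C_ne_zero a) hψ).mp h).2
  have h3 := Lg_nonneg ψ h2 x
  have : 0 < ψ.eval x ^ 2 := by positivity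
  have : 0 ≤ (x - a) ^ 2 * Lg ψ x := by positivity
  linarith

/-- at a critical point with nonzero value, value and second derivative have opposite signs -/
lemma crit_sign (φ : ℝ[X]) (h : φ.Splits) (x : ℝ) (hx : φ.eval x ≠ 0) (hd : φ.natDegree ≠ 0)
    (hc : (derivative φ).eval x = 0) : φ.eval x * (derivative (derivative φ)).eval x < 0 := by
  have := Lg_pos φ h x hx hd
  unfold Lg at this
  rw [hc] at this
  nlinarith

end Pool.Agent.H635Z
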