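import Pool.Agent.H635Z.C

set_option autoImplicit false

open Polynomial Finset Filter

namespace Pool.Agent.H635Z

/-- composition with a real-rooted polynomial with nonnegative roots -/
lemma comp_splits' (N : ℕ) (W r : ℝ[X]) (hW : W.Splits) (hd : W.natDegree ≤ N) (hr : r.Splits)
    (hr0 : ∀ ρ ∈ r.roots, 0 ≤ ρ) (hrd : r.natDegree ≤ N) : (comp N W r).Splits := by
  set L := r.roots.toList with hL
  have hlen : L.length = r.natDegree := by
    rw [hL, Multiset.length_toList, ← hr.natDegree_eq_card_roots]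
  let ι := Fin L.length ⊕ Fin (N - L.length)
  let x : ι → ℝ := Sum.elim (fun _ => 1) (fun _ => 0)
  let y : ι → ℝ := Sum.elim (fun i => L[i]) (fun _ => 1)
  have hcard : (Finset.univ : Finset ι).card = N := by
    rw [Finset.card_univ, Fintype.card_sum, Fintype.card_fin, Fintype.card_fin]; omega
  have hmem' : ∀ a ∈ L, 0 ≤ a := by
    intro a ha
    apply hr0
    rw [hL, Multiset.mem_toList] at ha
    exact ha
  have hmem : ∀ i : Fin L.length, 0 ≤ L[i] := fun i => hmem' _ (List.getElem_mem _)
  have h1 := comp_splits (Finset.univ : Finset ι) x y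
    (by rintro (i | i) _ <;> simp [x]) (by rintro (i | i) _ <;> simp [y]; exact hmem i) W hW
    (by rw [hcard]; exact hd)
  rw [hcard, Fintype.prod_sum_type] at h1
  have e1 : (∏ i : Fin (N - L.length), (C (y (Sum.inr i)) - C (x (Sum.inr i)) * X) : ℝ[X]) = 1 := by
    apply prod_eq_one
    intro i _
    simp [x, y]
  have e2 : (∏ i : Fin L.length, (C (y (Sum.inl i)) - C (x (Sum.inl i)) * X) : ℝ[X]) =
      C ((-1) ^ L.length) * (r.roots.map (fun a => X - C a)).prod := by
    have : ∀ i : Fin L.length, (C (y (Sum.inl i)) - C (x (Sum.inl i)) * X : ℝ[X]) =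
        (fun a : ℝ => (C (-1) : ℝ[X]) * (X - C a)) L[i] := by
      intro i
      simp [x, y]
    refine (prod_congr rfl (fun i _ => this i)).trans
      ((Fin.prod_univ_fun_getElem L (fun a : ℝ => (C (-1) : ℝ[X]) * (X - C a))).trans ?_)
    rw [List.prod_map_mul, List.map_const', List.prod_replicate, ← C_pow, hL]
    congr 1
    rw [← Multiset.prod_coe, ← Multiset.map_coe, Multiset.coe_toList]
  rw [e1, mul_one, e2] at h1
  rw [hr.eq_prod_roots]
  have e3 : (C r.leadingCoeff * (r.roots.map (fun a => X - C a)).prod : ℝ[X]) =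
      C (r.leadingCoeff * (-1) ^ L.length) *
        (C ((-1) ^ L.length) * (r.roots.map (fun a => X - C a)).prod) := by
    rw [← mul_assoc, ← C_mul]
    congr 2
    rw [mul_assoc, ← mul_pow]
    simp
  rw [e3, comp_C_mul_right]
  exact h1.C_mul _

lemma splits_derivative (φ : ℝ[X]) (h : φ.Splits) : (derivative φ).Splits := by
  by_cases h0 : φ.natDegree = 0
  · rw [eq_C_of_natDegree_eq_zero h0, derivative_C]; exact Splits.zero
  rw [splits_iff_card_roots]
  apply le_antisymm (card_roots' _)
  have h1 := card_roots_le_derivative φ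
  rw [← h.natDegree_eq_card_roots] at h1
  have h2 := natDegree_derivative_le φ
  omega

/-- divided difference -/
noncomputable def dd (n : ℕ) (F : ℝ[X]) (a b : ℂ) : ℂ :=
  ∑ j ∈ range (n + 1), (F.coeff j : ℂ) * ∑ k ∈ range j, a ^ k * b ^ (j - 1 - k)

lemma aeval_sum' (n : ℕ) (F : ℝ[X]) (h : F.natDegree ≤ n) (z : ℂ) :
    aeval z F = ∑ j ∈ range (n + 1), (F.coeff j : ℂ) * z ^ j := by
  rw [aeval_eq_sum_range' (Nat.lt_succ_of_le h)]
  apply sum_congr rfl
  intro j _
  rw [Algebra.smul_def]; rfl

lemma dd_mul (n : ℕ) (F : ℝ[X]) (h : F.natDegree ≤ n) (a b : ℂ) :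
    dd n F a b * (a - b) = aeval a F - aeval b F := by
  rw [aeval_sum' n F h, aeval_sum' n F h, ← sum_sub_distrib, dd, sum_mul]
  apply sum_congr rfl
  intro j _
  rw [mul_assoc, geom_sum₂_mul]
  ring

lemma dd_self (n : ℕ) (F : ℝ[X]) (h : F.natDegree ≤ n) (a : ℂ) :
    dd n F a a = aeval a (derivative F) := by
  have h1 : (derivative F).natDegree ≤ n := (natDegree_derivative_le F).trans (by omega)
  rw [aeval_sum' n _ h1, dd, sum_range_succ', sum_range_succ (fun j =>
    ((derivative F).coeff j : ℂ) * a ^ j)]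
  have h2 : (derivative F).coeff n = 0 := by
    rw [coeff_derivative, coeff_eq_zero_of_natDegree_lt (by omega)]; ring
  rw [h2]
  simp only [range_zero, sum_empty, mul_zero, add_zero, Complex.ofReal_zero, zero_mul]
  apply sum_congr rfl
  intro j _
  have : ∑ k ∈ range (j + 1), a ^ k * a ^ (j + 1 - 1 - k) = ((j : ℂ) + 1) * a ^ j := by
    rw [sum_congr rfl (fun k hk => by
      rw [← pow_add, show k + (j + 1 - 1 - k) = j by
        have := mem_range.mp hk; omega])]
    rw [sum_const, card_range, nsmul_eq_mul]; push_cast; ring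
  rw [this, coeff_derivative]
  push_cast
  ring

/-- a limit of non-real-rooted polynomials of exact degree has a non-real or a double root -/
lemma double_root_of_limit {ι : Type*} {l : Filter ι} (F : ι → ℝ[X]) (φ : ℝ[X]) (n : ℕ)
    (hF : ∀ i, (F i).natDegree ≤ n) (hφ : φ.natDegree ≤ n) (hlead : φ.coeff n ≠ 0)
    (hc : ∀ j, Tendsto (fun i => (F i).coeff j) l (nhds (φ.coeff j)))
    (hbad : ∃ᶠ i in l, ¬ (F i).Splits) :
    ∃ z : ℂ, aeval z φ = 0 ∧ (z.im ≠ 0 ∨ aeval z (derivative φ) = 0) := by
  classical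
  have hne : (l ⊓ 𝓟 {i | ¬ (F i).Splits}).NeBot := by
    rw [← Filter.frequently_mem_iff_neBot]; exact hbad
  set U : Ultrafilter ι := Ultrafilter.of (l ⊓ 𝓟 {i | ¬ (F i).Splits}) with hU
  have hUl : (U : Filter ι) ≤ l := (Ultrafilter.of_le _).trans inf_le_left
  have hUb : ∀ᶠ i in (U : Filter ι), ¬ (F i).Splits := by
    have : (U : Filter ι) ≤ 𝓟 {i | ¬ (F i).Splits} := (Ultrafilter.of_le _).trans inf_le_right
    exact this (mem_principal_self _)
  have hch : ∀ i, ¬ (F i).Splits → ∃ z : ℂ, 0 < z.im ∧ aeval z (F i) = 0 := by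
    intro i hi
    by_contra hcon
    push Not at hcon
    exact hi (splits_of_upper _ hcon)
  let z : ι → ℂ := fun i => if h : ¬ (F i).Splits then (hch i h).choose else 0
  have hz : ∀ i, ¬ (F i).Splits → 0 < (z i).im ∧ aeval (z i) (F i) = 0 := by
    intro i hi
    have : z i = (hch i hi).choose := dif_pos hi
    rw [this]
    exact (hch i hi).choose_spec
  have hcU : ∀ j, Tendsto (fun i => (F i).coeff j) U (nhds (φ.coeff j)) := fun j =>
    (hc j).mono_left hUl
  -- bound
  have hS : Tendsto (fun i => (∑ j ∈ range n, |(F i).coeff j|) / |(F i).coeff n|) U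
      (nhds ((∑ j ∈ range n, |φ.coeff j|) / |φ.coeff n|)) := by
    apply Tendsto.div
    · exact tendsto_finsetSum _ (fun j _ => (hcU j).abs)
    · exact (hcU n).abs
    · simpa using hlead
  set B := (∑ j ∈ range n, |φ.coeff j|) / |φ.coeff n| + 1 with hB
  have hBpos : 1 ≤ B := by
    rw [hB]
    have : 0 ≤ (∑ j ∈ range n, |φ.coeff j|) / |φ.coeff n| :=
      div_nonneg (sum_nonneg (fun _ _ => abs_nonneg _)) (abs_nonneg _)
    linarith
  have hbound : ∀ᶠ i in (U : Filter ι), z i ∈ Metric.closedBall (0 : ℂ) B := by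
    have h1 := hS.eventually_lt_const (show _ < B by rw [hB]; linarith)
    have h2 := (hcU n).eventually_ne hlead
    filter_upwards [h1, h2, hUb] with i hi1 hi2 hi3
    rw [mem_closedBall_zero_iff]
    by_contra hgt
    push Not at hgt
    have hz1 : 1 < ‖z i‖ := by linarith
    have h0 := (hz i hi3).2
    rw [aeval_sum' n _ (hF i), sum_range_succ] at h0
    have h4 : ((F i).coeff n : ℂ) * z i ^ n = -∑ j ∈ range n, ((F i).coeff j : ℂ) * z i ^ j := by
      linear_combination h0
    have h5 : |(F i).coeff n| * ‖z i‖ ^ n ≤ (∑ j ∈ range n, |(F i).coeff j|) * ‖z i‖ ^ (n - 1) := by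
      have := congrArg norm h4
      rw [norm_mul, norm_neg, norm_pow, Complex.norm_real, Real.norm_eq_abs] at this
      rw [this]
      refine (norm_sum_le _ _).trans ?_
      rw [sum_mul]
      apply sum_le_sum
      intro j hj
      rw [norm_mul, norm_pow, Complex.norm_real, Real.norm_eq_abs]
      apply mul_le_mul_of_nonneg_left _ (abs_nonneg _)
      apply pow_le_pow_right₀ hz1.le
      have := mem_range.mp hj
      omega
    have hpos : 0 < |(F i).coeff n| := abs_pos.mpr hi2
    rw [div_lt_iff₀ hpos] at hi1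
    rcases Nat.eq_zero_or_pos n with hn | hn
    · subst hn
      simp at h5
      exact hi2 h5
    · obtain ⟨k, rfl⟩ : ∃ k, n = k + 1 := ⟨n - 1, by omega⟩
      rw [pow_succ, Nat.add_sub_cancel] at h5
      have hk : 0 < ‖z i‖ ^ k := by positivity
      have h6 : |(F i).coeff (k + 1)| * ‖z i‖ ≤ ∑ j ∈ range (k + 1), |(F i).coeff j| := by
        have : |(F i).coeff (k + 1)| * ‖z i‖ * ‖z i‖ ^ k ≤
            (∑ j ∈ range (k + 1), |(F i).coeff j|) * ‖z i‖ ^ k := by linarith
        exact le_of_mul_le_mul_right this hk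
      nlinarith
  obtain ⟨w, _, hw⟩ := (isCompact_closedBall (0 : ℂ) B).ultrafilter_le_nhds (U.map z)
    (by
      rw [Ultrafilter.coe_map, le_principal_iff, Filter.mem_map]
      exact hbound)
  have hzw : Tendsto z U (nhds w) := hw
  have hw0 : aeval w φ = 0 := by
    have h1 : Tendsto (fun i => aeval (z i) (F i)) U (nhds (aeval w φ)) := by
      simp only [aeval_sum' n _ (hF _)]
      rw [aeval_sum' n φ hφ]
      apply tendsto_finsetSum
      intro j _
      exact ((Complex.continuous_ofReal.tendsto _).comp (hcU j)).mul (hzw.pow j)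
    have h2 : Tendsto (fun i => aeval (z i) (F i)) U (nhds 0) := by
      apply tendsto_const_nhds.congr'
      filter_upwards [hUb] with i hi
      rw [(hz i hi).2]
    exact tendsto_nhds_unique h1 h2
  refine ⟨w, hw0, ?_⟩
  by_cases him : w.im = 0
  · right
    have h1 : Tendsto (fun i => dd n (F i) (z i) ((starRingEnd ℂ) (z i))) U
        (nhds (dd n φ w ((starRingEnd ℂ) w))) := by
      unfold dd
      apply tendsto_finsetSum
      intro j _
      refine ((Complex.continuous_ofReal.tendsto _).comp (hcU j)).mul ?_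
      apply tendsto_finsetSum
      intro k _
      exact (hzw.pow k).mul (((Complex.continuous_conj.tendsto _).comp hzw).pow _)
    have h2 : Tendsto (fun i => dd n (F i) (z i) ((starRingEnd ℂ) (z i))) U (nhds 0) := by
      apply tendsto_const_nhds.congr'
      filter_upwards [hUb] with i hi
      obtain ⟨hi1, hi2⟩ := hz i hi
      have h3 := dd_mul n (F i) (hF i) (z i) ((starRingEnd ℂ) (z i))
      rw [hi2, aeval_conj, hi2, map_zero, sub_zero] at h3
      have h4 : z i - (starRingEnd ℂ) (z i) ≠ 0 := by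
        intro h5
        have := congrArg Complex.im h5
        simp at this
        linarith
      exact ((mul_eq_zero.mp h3).resolve_right h4).symm
    have h3 := tendsto_nhds_unique h1 h2
    have h4 : (starRingEnd ℂ) w = w := by
      apply Complex.ext <;> simp [him]
    rw [h4, dd_self n φ hφ] at h3
    exact h3
  · left; exact him

lemma aeval_real (x : ℝ) (Q : ℝ[X]) : aeval (x : ℂ) Q = ((Q.eval x : ℝ) : ℂ) :=
  aeval_algebraMap_apply_eq_algebraMap_eval x Q

/-- openness of simple real-rootedness -/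
lemma splits_perturb (W Q : ℝ[X]) (hW : W.Splits)
    (hs : ∀ t : ℝ, W.eval t = 0 → (derivative W).eval t ≠ 0) (hW0 : W ≠ 0)
    (hQ : Q.natDegree ≤ W.natDegree) : ∀ᶠ ε in nhds (0 : ℝ), (W + C ε * Q).Splits := by
  by_contra hcon
  rw [Filter.not_eventually] at hcon
  obtain ⟨z, hz, h⟩ := double_root_of_limit (l := nhds (0 : ℝ)) (fun ε => W + C ε * Q) W
    W.natDegree (fun ε => (natDegree_add_le _ _).trans (max_le le_rfl
      ((natDegree_C_mul_le _ _).trans hQ))) le_rfl (by
        rw [coeff_natDegree]; exact leadingCoeff_ne_zero.mpr hW0) (by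
        intro j
        have : Continuous (fun ε : ℝ => (W + C ε * Q).coeff j) := by
          simp only [coeff_add, coeff_C_mul]
          exact continuous_const.add (continuous_id.mul continuous_const)
        simpa using this.tendsto 0) hcon
  have him := real_of_splits W hW hW0 z hz
  rcases h with h | h
  · exact h him
  · obtain ⟨x, rfl⟩ : ∃ x : ℝ, z = x := ⟨z.re, by apply Complex.ext <;> simp [him]⟩
    rw [aeval_real] at hz h
    exact hs x (by exact_mod_cast hz) (by exact_mod_cast h)

end Pool.Agent.H635Z
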