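import Pool.Agent.H635Z.D

set_option autoImplicit false

open Polynomial Finset Filter

namespace Pool.Agent.H635Z

lemma comp_coeff (N : ℕ) (W r : ℝ[X]) (k : ℕ) : (comp N W r).coeff k =
    if k ≤ N then W.coeff k * r.coeff k * (-1) ^ k / (N.choose k : ℝ) else 0 := by
  unfold comp
  rw [finsetSum_coeff]
  simp only [coeff_C_mul, coeff_X_pow, mul_ite, mul_one, mul_zero]
  rw [sum_ite_eq (range (N + 1)) k]
  simp [Nat.lt_succ_iff]

/-- simple real roots -/
def Smp (W : ℝ[X]) : Prop := ∀ t : ℝ, W.eval t = 0 → (derivative W).eval t ≠ 0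

lemma no_double (N : ℕ) (W r : ℝ[X]) (hW : W.Splits) (hd : W.natDegree = N) (hs : Smp W)
    (hr : r.Splits) (hr0 : ∀ ρ ∈ r.roots, 0 ≤ ρ) (hrd : r.natDegree ≤ N) (hrne : r ≠ 0)
    (hWe : W.coeff r.natTrailingDegree ≠ 0) (h1 : (comp N W r).eval 1 = 0)
    (h2 : (derivative (comp N W r)).eval 1 = 0) : False := by
  set e := r.natTrailingDegree with he
  have heN : e ≤ N := (natTrailingDegree_le_natDegree r).trans hrd
  have hre : r.coeff e ≠ 0 := by
    rw [he]
    have := trailingCoeff_nonzero_iff_nonzero.mpr hrne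
    exact this
  set K := comp N W r with hK
  have hW0 : W ≠ 0 := by rintro rfl; simp at hWe
  have hchoose : (N.choose e : ℝ) ≠ 0 := by exact_mod_cast (Nat.choose_pos heN).ne'
  have hKj : ∀ j < e, K.coeff j = 0 := by
    intro j hj
    rw [hK, comp_coeff]
    have : r.coeff j = 0 := coeff_eq_zero_of_lt_natTrailingDegree hj
    rw [this]; simp
  obtain ⟨K1, hK1⟩ := X_pow_dvd_iff.mpr hKj
  set ce : ℝ := r.coeff e * (-1) ^ e / (N.choose e : ℝ) with hce
  have hce0 : ce ≠ 0 := by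
    rw [hce]
    exact div_ne_zero (mul_ne_zero hre (pow_ne_zero _ (by norm_num))) hchoose
  have hK10 : K1.coeff 0 ≠ 0 := by
    have h3 : K.coeff e = K1.coeff 0 := by
      rw [hK1, mul_comm]
      have := coeff_mul_X_pow K1 e 0
      simpa using this
    rw [← h3, hK, comp_coeff, if_pos heN]
    exact div_ne_zero (mul_ne_zero (mul_ne_zero hWe hre) (pow_ne_zero _ (by norm_num))) hchoose
  have hK1e : K1.eval 1 = 0 := by
    rw [hK1, eval_mul, eval_pow, eval_X, one_pow, one_mul] at h1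
    exact h1
  have hK1d : (derivative K1).eval 1 = 0 := by
    rw [hK1, derivative_mul, eval_add, eval_mul, eval_mul, hK1e, mul_zero, zero_add, eval_pow,
      eval_X, one_pow, one_mul] at h2
    exact h2
  have hQ : (X ^ e : ℝ[X]).natDegree ≤ W.natDegree := by rw [natDegree_X_pow, hd]; exact heN
  have hev := splits_perturb W (X ^ e) hW hs hW0 hQ
  have hkey : ∀ ε : ℝ, ε ≠ 0 → (W + C ε * X ^ e).Splits →
      ε * (ce * (derivative (derivative K1)).eval 1) < 0 := by
    intro ε hε hsp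
    have hdeg : (W + C ε * X ^ e).natDegree ≤ N := by
      refine (natDegree_add_le _ _).trans (max_le hd.le ?_)
      exact (natDegree_C_mul_le _ _).trans (by rw [natDegree_X_pow]; exact heN)
    have h3 := comp_splits' N (W + C ε * X ^ e) r hsp hdeg hr hr0 hrd
    have h4 : comp N (W + C ε * X ^ e) r = X ^ e * (K1 + C (ε * ce)) := by
      rw [comp_add_left, ← hK, hK1, mul_add]
      congr 1
      ext k
      rw [comp_coeff, coeff_C_mul, coeff_X_pow, mul_comm (X ^ e), coeff_C_mul, coeff_X_pow]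
      by_cases hk : k = e
      · subst hk
        rw [if_pos heN, if_pos rfl, hce]; ring
      · rw [if_neg hk]; simp
    rw [h4] at h3
    have h5 : (K1 + C (ε * ce)).eval 1 = ε * ce := by
      rw [eval_add, hK1e, eval_C, zero_add]
    have h6 : (K1 + C (ε * ce)) ≠ 0 := by
      intro h0
      rw [h0, eval_zero] at h5
      exact mul_ne_zero hε hce0 h5.symm
    have h7 : (K1 + C (ε * ce)).Splits :=
      ((splits_mul (pow_ne_zero _ X_ne_zero) h6).mp h3).2
    have h8 : (K1 + C (ε * ce)).natDegree ≠ 0 := by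
      intro h0
      have h9 : K1.natDegree = 0 := by
        rw [natDegree_add_C] at h0; exact h0
      rw [eq_C_of_natDegree_eq_zero h9, eval_C] at hK1e
      exact hK10 hK1e
    have h9 := crit_sign _ h7 1 (by rw [h5]; exact mul_ne_zero hε hce0) h8 (by
      rw [derivative_add, derivative_C, add_zero]; exact hK1d)
    rw [h5, derivative_add, derivative_C, add_zero] at h9
    linarith
  rw [Metric.eventually_nhds_iff] at hev
  obtain ⟨δ, hδ, hev⟩ := hev
  have a1 := hkey (δ / 2) (by positivity) (hev (by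
    rw [Real.dist_eq, sub_zero, abs_of_pos (by positivity)]; linarith))
  have a2 := hkey (-(δ / 2)) (by have : 0 < δ / 2 := by positivity
                                 linarith) (hev (by
    rw [Real.dist_eq, sub_zero, abs_neg, abs_of_pos (by positivity)]; linarith))
  linarith

/-! ### the bilinear form on zero-sum polynomials -/

noncomputable def kap (n i : ℕ) : ℝ := (-1) ^ i / ((1 - (i : ℝ)) * (n.choose i : ℝ))

noncomputable def fP (n : ℕ) (G P : ℝ[X]) : ℝ[X] :=
  ∑ i ∈ range (n + 1), C (kap n i * G.coeff i * P.coeff i) * X ^ i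

lemma fP_coeff (n : ℕ) (G P : ℝ[X]) (k : ℕ) : (fP n G P).coeff k =
    if k ≤ n then kap n k * G.coeff k * P.coeff k else 0 := by
  unfold fP
  rw [finsetSum_coeff]
  simp only [coeff_C_mul, coeff_X_pow, mul_ite, mul_one, mul_zero]
  rw [sum_ite_eq (range (n + 1)) k]
  simp [Nat.lt_succ_iff]

lemma fP_symm (n : ℕ) (G P : ℝ[X]) : fP n G P = fP n P G := by
  unfold fP
  apply sum_congr rfl
  intro i _
  congr 2
  ring

lemma fP_natDegree (n : ℕ) (G P : ℝ[X]) : (fP n G P).natDegree ≤ n := by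
  rw [natDegree_le_iff_coeff_eq_zero]
  intro k hk
  rw [fP_coeff, if_neg (by omega)]

lemma fP_add (n : ℕ) (G P P' : ℝ[X]) : fP n G (P + P') = fP n G P + fP n G P' := by
  ext k
  rw [coeff_add, fP_coeff, fP_coeff, fP_coeff, coeff_add]
  split_ifs <;> ring

lemma fP_C_mul (n : ℕ) (G P : ℝ[X]) (a : ℝ) : fP n G (C a * P) = C a * fP n G P := by
  ext k
  rw [coeff_C_mul, fP_coeff, fP_coeff, coeff_C_mul]
  split_ifs <;> ring

noncomputable def dX (φ : ℝ[X]) : ℝ[X] := divX (derivative φ)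

lemma dX_coeff (φ : ℝ[X]) (j : ℕ) : (dX φ).coeff j = φ.coeff (j + 2) * (j + 2) := by
  unfold dX
  rw [coeff_divX, coeff_derivative]
  push_cast
  ring

lemma kap_succ_succ (N j : ℕ) (hj : j ≤ N) : kap (N + 2) (j + 2) =
    -((-1) ^ j * (j + 2)) / (((N : ℝ) + 2) * (N + 1) * (N.choose j : ℝ)) := by
  unfold kap
  have c0 : (N.choose j : ℝ) ≠ 0 := by exact_mod_cast (Nat.choose_pos hj).ne'
  have c1 : ((N + 2).choose (j + 2) : ℝ) ≠ 0 := by
    exact_mod_cast (Nat.choose_pos (by omega)).ne'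
  have k1 : ((N : ℝ) + 1) * (N.choose j : ℝ) = ((N + 1).choose (j + 1) : ℝ) * ((j : ℝ) + 1) := by
    exact_mod_cast Nat.add_one_mul_choose_eq N j
  have k2 : ((N : ℝ) + 2) * ((N + 1).choose (j + 1) : ℝ) =
      ((N + 2).choose (j + 2) : ℝ) * ((j : ℝ) + 2) := by
    have := Nat.add_one_mul_choose_eq (N + 1) (j + 1)
    have h2 : (((N + 1 : ℕ) : ℝ) + 1) * ((N + 1).choose (j + 1) : ℝ) =
        ((N + 1 + 1).choose (j + 1 + 1) : ℝ) * (((j + 1 : ℕ) : ℝ) + 1) := by exact_mod_cast this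
    push_cast at h2
    linarith
  have hj1 : (1 - ((j + 2 : ℕ) : ℝ)) ≠ 0 := by
    push_cast
    have : (0 : ℝ) ≤ j := Nat.cast_nonneg j
    linarith
  have hN1 : ((N : ℝ) + 2) ≠ 0 := by positivity
  have hN2 : ((N : ℝ) + 1) ≠ 0 := by positivity
  rw [div_eq_div_iff (mul_ne_zero hj1 c1) (mul_ne_zero (mul_ne_zero hN1 hN2) c0)]
  push_cast
  rw [pow_add]
  have k3 : ((N : ℝ) + 2) * (N + 1) * (N.choose j : ℝ) =
      ((N + 2).choose (j + 2) : ℝ) * ((j : ℝ) + 2) * ((j : ℝ) + 1) := by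
    linear_combination ((N : ℝ) + 2) * k1 + ((j : ℝ) + 1) * k2
  linear_combination ((-1 : ℝ) ^ j) * k3

lemma fP_deriv (N : ℕ) (G P : ℝ[X]) : derivative (fP (N + 2) G P) =
    C (-1 / (((N : ℝ) + 2) * (N + 1))) * (X * comp N (dX G) (dX P)) := by
  ext k
  rw [coeff_derivative, fP_coeff, coeff_C_mul]
  rcases k with _ | j
  · simp [kap]
  · rw [coeff_X_mul, comp_coeff, dX_coeff, dX_coeff]
    by_cases hj : j ≤ N
    · rw [if_pos (by omega), if_pos hj, show j + 1 + 1 = j + 2 by ring, kap_succ_succ N j hj]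
      have c0 : (N.choose j : ℝ) ≠ 0 := by exact_mod_cast (Nat.choose_pos hj).ne'
      have hN1 : ((N : ℝ) + 2) ≠ 0 := by positivity
      have hN2 : ((N : ℝ) + 1) ≠ 0 := by positivity
      push_cast
      field_simp
      ring
    · rw [if_neg (by omega), if_neg hj]; ring

lemma fP_X2 (N : ℕ) (G r : ℝ[X]) : fP (N + 2) G (X ^ 2 * r) =
    C (-1 / (((N : ℝ) + 2) * (N + 1))) * (X ^ 2 * comp N (dX G) r) := by
  ext k
  rw [fP_coeff, coeff_C_mul, mul_comm (X ^ 2) r, mul_comm (X ^ 2) (comp N (dX G) r),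
    coeff_mul_X_pow', coeff_mul_X_pow']
  by_cases hk : 2 ≤ k
  · obtain ⟨j, rfl⟩ : ∃ j, k = j + 2 := ⟨k - 2, by omega⟩
    rw [if_pos hk, if_pos hk, Nat.add_sub_cancel, comp_coeff, dX_coeff]
    by_cases hj : j ≤ N
    · rw [if_pos (by omega), if_pos hj, kap_succ_succ N j hj]
      have c0 : (N.choose j : ℝ) ≠ 0 := by exact_mod_cast (Nat.choose_pos hj).ne'
      have hN1 : ((N : ℝ) + 2) ≠ 0 := by positivity
      have hN2 : ((N : ℝ) + 1) ≠ 0 := by positivity
      field_simp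
    · rw [if_neg (by omega), if_neg hj]; ring
  · rw [if_neg hk, if_neg hk]; simp

lemma fP_euler (n : ℕ) (G Q : ℝ[X]) (hG : G.coeff 1 = 0) :
    fP n G (Q - X * derivative Q) = comp n G Q := by
  ext k
  rw [fP_coeff, comp_coeff, coeff_sub]
  by_cases hk : k ≤ n
  · rw [if_pos hk, if_pos hk]
    have c0 : (n.choose k : ℝ) ≠ 0 := by exact_mod_cast (Nat.choose_pos hk).ne'
    rcases k with _ | k
    · simp [kap]
    · rw [coeff_X_mul, coeff_derivative]
      rcases k with _ | k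
      · rw [hG]; simp
      · unfold kap
        have hj1 : (1 - ((k + 1 + 1 : ℕ) : ℝ)) ≠ 0 := by
          push_cast
          have : (0 : ℝ) ≤ k := Nat.cast_nonneg k
          linarith
        push_cast at hj1 ⊢
        field_simp
  · rw [if_neg hk, if_neg hk]

/-- scaling -/
noncomputable def sc (σ : ℝ) (P : ℝ[X]) : ℝ[X] := P.comp (C σ * X)

lemma sc_coeff (σ : ℝ) (P : ℝ[X]) (k : ℕ) : (sc σ P).coeff k = P.coeff k * σ ^ k := by
  unfold sc; exact comp_C_mul_X_coeff

lemma fP_sc (n : ℕ) (G P : ℝ[X]) (σ : ℝ) : fP n G (sc σ P) = sc σ (fP n G P) := by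
  ext k
  rw [sc_coeff, fP_coeff, fP_coeff, sc_coeff]
  split_ifs <;> ring

lemma sc_eval (σ : ℝ) (P : ℝ[X]) (x : ℝ) : (sc σ P).eval x = P.eval (σ * x) := by
  unfold sc; simp [eval_comp]

lemma sc_deriv (σ : ℝ) (P : ℝ[X]) : derivative (sc σ P) = C σ * sc σ (derivative P) := by
  unfold sc
  rw [derivative_comp, derivative_C_mul, derivative_X, mul_one]

end Pool.Agent.H635Z
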