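import Pool.Agent.H635Z.E

set_option autoImplicit false

open Polynomial Finset Filter

namespace Pool.Agent.H635Z

/-- generic zero-sum real-rooted polynomials (in the reciprocal variable) -/
structure Gen (N : ℕ) (G : ℝ[X]) : Prop where
  sp : G.Splits
  dg : G.natDegree = N + 2
  sm : Smp G
  c0 : G.coeff 0 = 1
  c1 : G.coeff 1 = 0
  cc : ∀ i, 2 ≤ i → i ≤ N + 2 → G.coeff i ≠ 0

lemma X_dX (φ : ℝ[X]) (h : φ.coeff 1 = 0) : X * dX φ = derivative φ := by
  unfold dX
  have h1 := divX_mul_X_add (derivative φ)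
  have h2 : (derivative φ).coeff 0 = 0 := by rw [coeff_derivative, h]; ring
  rw [h2, C_0, add_zero] at h1
  rw [mul_comm]; exact h1

lemma dX_natDegree (φ : ℝ[X]) (N : ℕ) (h : φ.natDegree ≤ N + 2) : (dX φ).natDegree ≤ N := by
  rw [natDegree_le_iff_coeff_eq_zero]
  intro k hk
  rw [dX_coeff, coeff_eq_zero_of_natDegree_lt (by omega)]; ring

lemma dX_splits (φ : ℝ[X]) (h : φ.coeff 1 = 0) (hs : φ.Splits) : (dX φ).Splits := by
  by_cases h0 : dX φ = 0
  · rw [h0]; exact Splits.zero
  have h1 := splits_derivative φ hs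
  rw [← X_dX φ h] at h1
  exact ((splits_mul X_ne_zero h0).mp h1).2

lemma smp_derivative (φ : ℝ[X]) (hs : φ.Splits) (hsm : Smp φ) (hd : φ.natDegree ≠ 0) :
    Smp (derivative φ) := by
  intro t h1 h2
  by_cases h0 : φ.eval t = 0
  · exact hsm t h0 h1
  · have := Lg_pos φ hs t h0 hd
    unfold Lg at this
    rw [h1, h2] at this
    simp at this

lemma Gen.W_smp {N : ℕ} {G : ℝ[X]} (h : Gen N G) : Smp (dX G) := by
  intro t h1 h2
  have h3 := smp_derivative G h.sp h.sm (by rw [h.dg]; omega)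
  rw [← X_dX G h.c1] at h3
  apply h3 t
  · rw [eval_mul, h1, mul_zero]
  · rw [derivative_mul, eval_add, eval_mul, eval_mul, h1, h2]; simp

lemma Gen.W_coeff {N : ℕ} {G : ℝ[X]} (h : Gen N G) (j : ℕ) (hj : j ≤ N) :
    (dX G).coeff j ≠ 0 := by
  rw [dX_coeff]
  apply mul_ne_zero (h.cc _ (by omega) (by omega))
  positivity

lemma Gen.W_natDegree {N : ℕ} {G : ℝ[X]} (h : Gen N G) : (dX G).natDegree = N :=
  le_antisymm (dX_natDegree G N h.dg.le) (le_natDegree_of_ne_zero (h.W_coeff N le_rfl))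

lemma Gen.W_splits {N : ℕ} {G : ℝ[X]} (h : Gen N G) : (dX G).Splits := dX_splits G h.c1 h.sp

section
variable {ι : Type*} [Fintype ι] [DecidableEq ι]

noncomputable def PP (a : ι → ℝ) : ℝ[X] :=
  (∏ i, (1 - C (a i) * X)) * (1 + C (∑ i, a i) * X)

noncomputable def Om (a : ι → ℝ) (i : ι) : ℝ[X] := ∏ l ∈ univ.erase i, (1 - C (a l) * X)

lemma PP_deriv (a : ι → ℝ) : derivative (PP a) =
    X * (-∑ i, C (a i * (a i + ∑ j, a j)) * Om a i) := by
  have hE : derivative (∏ i, (1 - C (a i) * X) : ℝ[X]) = ∑ i, Om a i * (-C (a i)) := by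
    rw [derivative_prod_finset]
    apply sum_congr rfl
    intro i _
    rw [Om]
    simp
  have hi : ∀ i, (∏ j, (1 - C (a j) * X) : ℝ[X]) = (1 - C (a i) * X) * Om a i := by
    intro i
    rw [Om, mul_prod_erase univ (fun j => (1 - C (a j) * X : ℝ[X])) (mem_univ i)]
  rw [PP, derivative_mul, hE]
  have hA : derivative (1 + C (∑ i, a i) * X : ℝ[X]) = ∑ i, C (a i) := by
    rw [derivative_add, derivative_one, derivative_C_mul, derivative_X, zero_add, mul_one,
      map_sum]
  rw [hA, mul_sum, sum_mul, ← sum_add_distrib, ← sum_neg_distrib, mul_sum]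
  apply sum_congr rfl
  intro i _
  rw [hi i]
  simp only [C_mul, C_add]
  ring

lemma PP_coeff_one (a : ι → ℝ) : (PP a).coeff 1 = 0 := by
  have h := congrArg (fun p => p.coeff 0) (PP_deriv a)
  simp only [coeff_derivative, coeff_X_mul_zero] at h
  simpa using h

lemma PP_coeff_zero (a : ι → ℝ) : (PP a).coeff 0 = 1 := by
  rw [coeff_zero_eq_eval_zero, PP]
  simp [eval_prod]

lemma dX_PP (a : ι → ℝ) : dX (PP a) = -∑ i, C (a i * (a i + ∑ j, a j)) * Om a i := by
  have h := X_dX (PP a) (PP_coeff_one a)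
  rw [PP_deriv] at h
  exact mul_left_cancel₀ X_ne_zero h

lemma lin_splits (b : ℝ) : (1 - C b * X : ℝ[X]).Splits := by
  apply Splits.of_natDegree_le_one
  refine (natDegree_sub_le _ _).trans ?_
  simp only [natDegree_one, zero_le, sup_of_le_right]
  exact (natDegree_C_mul_le _ _).trans natDegree_X_le

lemma PP_splits (a : ι → ℝ) : (PP a).Splits := by
  unfold PP
  apply Splits.mul
  · exact Splits.prod (fun i _ => lin_splits (a i))
  · have := lin_splits (-∑ i, a i)
    simpa [sub_eq_add_neg] using this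

lemma PP_natDegree (a : ι → ℝ) : (PP a).natDegree ≤ Fintype.card ι + 1 := by
  unfold PP
  refine natDegree_mul_le.trans ?_
  have h1 : (∏ i, (1 - C (a i) * X) : ℝ[X]).natDegree ≤ Fintype.card ι := by
    refine (natDegree_prod_le _ _).trans ?_
    have : ∀ i ∈ (univ : Finset ι), (1 - C (a i) * X : ℝ[X]).natDegree ≤ 1 := by
      intro i _
      refine (natDegree_sub_le _ _).trans ?_
      simp only [natDegree_one, zero_le, sup_of_le_right]
      exact (natDegree_C_mul_le _ _).trans natDegree_X_le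
    refine (sum_le_sum this).trans ?_
    simp
  have h2 : (1 + C (∑ i, a i) * X : ℝ[X]).natDegree ≤ 1 := by
    refine (natDegree_add_le _ _).trans ?_
    simp only [natDegree_one, zero_le, sup_of_le_right]
    exact (natDegree_C_mul_le _ _).trans natDegree_X_le
  omega

lemma dX_PP_neg (a : ι → ℝ) (ha : ∀ i, 0 ≤ a i) (hne : ∃ i, a i ≠ 0) (ρ : ℝ) (hρ : ρ ≤ 0) :
    (dX (PP a)).eval ρ < 0 := by
  rw [dX_PP, eval_neg, neg_lt_zero, eval_finset_sum]
  have hA : 0 ≤ ∑ j, a j := sum_nonneg (fun j _ => ha j)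
  have hOm : ∀ i, 0 < (Om a i).eval ρ := by
    intro i
    rw [Om, eval_prod]
    apply prod_pos
    intro l _
    simp only [eval_sub, eval_one, eval_mul, eval_C, eval_X]
    have := mul_nonneg (ha l) (neg_nonneg.mpr hρ)
    linarith
  obtain ⟨i, hi⟩ := hne
  apply sum_pos'
  · intro j _
    rw [eval_mul, eval_C]
    exact mul_nonneg (mul_nonneg (ha j) (add_nonneg (ha j) hA)) (hOm j).le
  · refine ⟨i, mem_univ i, ?_⟩
    rw [eval_mul, eval_C]
    have h1 : 0 < a i := lt_of_le_of_ne (ha i) (Ne.symm hi)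
    exact mul_pos (mul_pos h1 (by linarith)) (hOm i)

lemma dX_PP_roots (a : ι → ℝ) (ha : ∀ i, 0 ≤ a i) (hne : ∃ i, a i ≠ 0) :
    ∀ ρ ∈ (dX (PP a)).roots, 0 ≤ ρ := by
  intro ρ hρ
  by_contra h
  push Not at h
  have h1 := dX_PP_neg a ha hne ρ h.le
  have h2 : dX (PP a) ≠ 0 := by rintro h0; simp [h0] at hρ
  rw [mem_roots h2, IsRoot.def] at hρ
  linarith

variable {N : ℕ} {G : ℝ[X]}

lemma f_deriv_one (hG : G.coeff 1 = 0) (P : ℝ[X]) :
    (derivative (fP (N + 2) G P)).eval 1 =
      (-1 / (((N : ℝ) + 2) * (N + 1))) * (comp N (dX G) (dX P)).eval 1 := by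
  rw [fP_deriv]; simp

lemma f_deriv2_one (hG : G.coeff 1 = 0) (P : ℝ[X]) :
    (derivative (derivative (fP (N + 2) G P))).eval 1 =
      (-1 / (((N : ℝ) + 2) * (N + 1))) * ((comp N (dX G) (dX P)).eval 1 +
        (derivative (comp N (dX G) (dX P))).eval 1) := by
  rw [fP_deriv, derivative_C_mul, derivative_mul]; simp

lemma cN_ne : (-1 / (((N : ℝ) + 2) * (N + 1))) ≠ 0 := by
  apply div_ne_zero (by norm_num)
  positivity

/-- nondegeneracy of critical points -/
lemma nondeg (hG : Gen N G) (hcard : Fintype.card ι = N + 1) (a : ι → ℝ) (ha : ∀ i, 0 ≤ a i)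
    (hne : ∃ i, a i ≠ 0) (h1 : (derivative (fP (N + 2) G (PP a))).eval 1 = 0)
    (h2 : (derivative (derivative (fP (N + 2) G (PP a)))).eval 1 = 0) : False := by
  rw [f_deriv_one hG.c1] at h1
  rw [f_deriv2_one hG.c1] at h2
  have h3 := (mul_eq_zero.mp h1).resolve_left cN_ne
  have h4 := (mul_eq_zero.mp h2).resolve_left cN_ne
  rw [h3, zero_add] at h4
  have h0 : (dX (PP a)).coeff 0 ≠ 0 := by
    rw [coeff_zero_eq_eval_zero]
    exact (dX_PP_neg a ha hne 0 le_rfl).ne
  have hne0 : dX (PP a) ≠ 0 := by intro h; rw [h] at h0; simp at h0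
  have htr : (dX (PP a)).natTrailingDegree = 0 := by
    rw [natTrailingDegree_eq_zero]; right; exact h0
  refine no_double N (dX G) (dX (PP a)) hG.W_splits hG.W_natDegree hG.W_smp
    (dX_splits _ (PP_coeff_one a) (PP_splits a)) (dX_PP_roots a ha hne) ?_ hne0 ?_ h3 h4
  · apply dX_natDegree
    have := PP_natDegree a
    omega
  · rw [htr]; exact hG.W_coeff 0 (by omega)

/-- exclusion of degenerate limits -/
lemma typeII {κ : Type*} (hG : Gen N G) (s : Finset κ) (hs : s.card = N) (t : κ → ℝ)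
    (ht0 : ∀ i ∈ s, 0 ≤ t i) (ht1 : ∀ i ∈ s, t i ≤ 1)
    (h1 : (derivative (fP (N + 2) G (-(X ^ 2 * ∏ i ∈ s, (C (1 - t i) - C (t i) * X))))).eval 1 = 0)
    (h2 : 0 ≤ (fP (N + 2) G (-(X ^ 2 * ∏ i ∈ s, (C (1 - t i) - C (t i) * X)))).eval 1 *
      (derivative (derivative (fP (N + 2) G
        (-(X ^ 2 * ∏ i ∈ s, (C (1 - t i) - C (t i) * X)))))).eval 1) : False := by
  set r : ℝ[X] := ∏ i ∈ s, (C (1 - t i) - C (t i) * X) with hr
  set K := comp N (dX G) r with hK
  set c : ℝ := -(-1 / (((N : ℝ) + 2) * (N + 1))) with hc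
  have hc0 : c ≠ 0 := by rw [hc]; exact neg_ne_zero.mpr cN_ne
  have e : fP (N + 2) G (-(X ^ 2 * r)) = C c * (X ^ 2 * K) := by
    rw [show -(X ^ 2 * r) = C (-1) * (X ^ 2 * r) by simp, fP_C_mul, fP_X2, ← mul_assoc, ← C_mul,
      hc, hK]
    congr 2
    ring
  rw [e] at h1 h2
  have hrpos : ∀ ρ : ℝ, ρ < 0 → 0 < r.eval ρ := by
    intro ρ hρ
    rw [hr, eval_prod]
    apply prod_pos
    intro i hi
    simp only [eval_sub, eval_mul, eval_C, eval_X]
    have := ht0 i hi
    have := ht1 i hi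
    rcases eq_or_lt_of_le (ht0 i hi) with h | h
    · rw [← h]; linarith
    · have := mul_pos h (neg_pos.mpr hρ)
      linarith
  have hr0 : r ≠ 0 := by
    intro h
    have := hrpos (-1) (by norm_num)
    rw [h] at this
    simp at this
  have hrs : r.Splits := by
    rw [hr]
    apply Splits.prod
    intro i _
    apply Splits.of_natDegree_le_one
    refine (natDegree_sub_le _ _).trans ?_
    simp only [natDegree_C, zero_le, sup_of_le_right]
    exact (natDegree_C_mul_le _ _).trans natDegree_X_le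
  have hrr : ∀ ρ ∈ r.roots, 0 ≤ ρ := by
    intro ρ hρ
    by_contra h
    push Not at h
    have h3 := hrpos ρ h
    rw [mem_roots hr0, IsRoot.def] at hρ
    linarith
  have hrd : r.natDegree ≤ N := by
    rw [hr, ← hs]
    refine (natDegree_prod_le _ _).trans ?_
    have : ∀ i ∈ s, (C (1 - t i) - C (t i) * X : ℝ[X]).natDegree ≤ 1 := by
      intro i _
      refine (natDegree_sub_le _ _).trans ?_
      simp only [natDegree_C, zero_le, sup_of_le_right]
      exact (natDegree_C_mul_le _ _).trans natDegree_X_le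
    refine (sum_le_sum this).trans ?_
    simp
  have hKs : K.Splits := comp_splits' N (dX G) r hG.W_splits hG.W_natDegree.le hrs hrr hrd
  by_cases hK1 : K.eval 1 = 0
  · have h3 : (derivative K).eval 1 = 0 := by
      rw [derivative_C_mul, derivative_mul, eval_mul, eval_add, eval_mul, eval_mul, hK1] at h1
      simp at h1
      exact h1.resolve_left hc0
    exact no_double N (dX G) r hG.W_splits hG.W_natDegree hG.W_smp hrs hrr hrd hr0
      (hG.W_coeff _ ((natTrailingDegree_le_natDegree r).trans hrd)) hK1 h3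
  · have h3 : (C c * (X ^ 2 * K)).eval 1 ≠ 0 := by
      simp [hc0, hK1]
    have h4 : (C c * (X ^ 2 * K)).Splits := ((Splits.X_pow 2).mul hKs).C_mul c
    have h5 : (C c * (X ^ 2 * K)).natDegree ≠ 0 := by
      intro h
      rw [eq_C_of_natDegree_eq_zero h] at h3
      simp at h3
    have := crit_sign _ h4 1 h3 h5 h1
    linarith

/-- one-cluster polynomials -/
lemma one_cluster (hG : Gen N G) (hcard : Fintype.card ι = N + 1) (a : ι → ℝ) (b : ℝ)
    (hb : 0 < b) (ha : ∀ i, a i = 0 ∨ a i = b) (hne : ∃ i, a i ≠ 0)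
    (h1 : (derivative (fP (N + 2) G (PP a))).eval 1 = 0)
    (h2 : 0 ≤ (fP (N + 2) G (PP a)).eval 1 *
      (derivative (derivative (fP (N + 2) G (PP a)))).eval 1) : False := by
  classical
  set l := (univ.filter (fun i => a i = b)).card with hl
  have hl' : l ≤ N + 1 := by
    rw [hl, ← hcard]; exact card_le_univ _
  set Q : ℝ[X] := (1 - C b * X) ^ (l + 1) with hQ
  have hprod : (∏ i, (1 - C (a i) * X) : ℝ[X]) = (1 - C b * X) ^ l := by
    rw [← prod_filter_mul_prod_filter_not univ (fun i => a i = b)]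
    rw [prod_congr rfl (g := fun _ => (1 - C b * X : ℝ[X])) (fun i hi => by
      rw [(mem_filter.mp hi).2])]
    rw [prod_const, prod_eq_one (s := univ.filter (fun i => ¬ a i = b)) (fun i hi => by
      rw [(ha i).resolve_right (mem_filter.mp hi).2]; simp), mul_one]
  have hsum : (∑ i, a i) = l * b := by
    rw [← sum_filter_add_sum_filter_not univ (fun i => a i = b)]
    rw [sum_congr rfl (g := fun _ => b) (fun i hi => (mem_filter.mp hi).2)]
    rw [sum_const, sum_eq_zero (s := univ.filter (fun i => ¬ a i = b)) (fun i hi =>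
      (ha i).resolve_right (mem_filter.mp hi).2), add_zero, nsmul_eq_mul]
  have hPQ : PP a = Q - X * derivative Q := by
    rw [PP, hprod, hsum, hQ, derivative_pow]
    simp only [derivative_sub, derivative_one, derivative_C_mul, derivative_X, C_mul, map_natCast,
      Nat.add_sub_cancel]
    push_cast
    ring
  have hf : fP (N + 2) G (PP a) = comp (N + 2) G Q := by rw [hPQ, fP_euler _ _ _ hG.c1]
  have hQs : Q.Splits := (lin_splits b).pow _
  have hQ0 : Q.coeff 0 = 1 := by rw [coeff_zero_eq_eval_zero, hQ]; simp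
  have hQne : Q ≠ 0 := by intro h; rw [h] at hQ0; simp at hQ0
  have hQr : ∀ ρ ∈ Q.roots, 0 ≤ ρ := by
    intro ρ hρ
    rw [mem_roots hQne, IsRoot.def, hQ, eval_pow] at hρ
    have h3 := pow_eq_zero_iff (Nat.succ_ne_zero l) |>.mp hρ
    simp only [eval_sub, eval_one, eval_mul, eval_C, eval_X] at h3
    by_contra h
    push Not at h
    nlinarith [mul_pos hb (neg_pos.mpr h)]
  have hQd : Q.natDegree ≤ N + 2 := by
    rw [hQ]
    refine natDegree_pow_le.trans ?_
    have : (1 - C b * X : ℝ[X]).natDegree ≤ 1 := by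
      refine (natDegree_sub_le _ _).trans ?_
      simp only [natDegree_one, zero_le, sup_of_le_right]
      exact (natDegree_C_mul_le _ _).trans natDegree_X_le
    calc (l + 1) * (1 - C b * X : ℝ[X]).natDegree ≤ (l + 1) * 1 := Nat.mul_le_mul_left _ this
      _ ≤ N + 2 := by omega
  have hsp := comp_splits' (N + 2) G Q hG.sp hG.dg.le hQs hQr hQd
  by_cases h0 : (fP (N + 2) G (PP a)).eval 1 = 0
  · have htr : Q.natTrailingDegree = 0 := by
      rw [natTrailingDegree_eq_zero]; right; rw [hQ0]; norm_num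
    rw [hf] at h0 h1
    exact no_double (N + 2) G Q hG.sp hG.dg hG.sm hQs hQr hQd hQne
      (by rw [htr, hG.c0]; norm_num) h0 h1
  · have h3 : (fP (N + 2) G (PP a)).natDegree ≠ 0 := by
      intro h
      have h4 : (fP (N + 2) G (PP a)).coeff 2 = 0 := coeff_eq_zero_of_natDegree_lt (by omega)
      rw [fP_coeff, if_pos (by omega)] at h4
      have h5 : (PP a).coeff 2 ≠ 0 := by
        have h6 := dX_PP_neg a (fun i => by rcases ha i with h | h <;> rw [h]; exact hb.le) hne 0
          le_rfl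
        rw [← coeff_zero_eq_eval_zero, dX_coeff] at h6
        intro h7
        rw [show (0 + 2) = 2 by rfl, h7] at h6
        simp at h6
      have h6 : kap (N + 2) 2 ≠ 0 := by
        have := kap_succ_succ N 0 (Nat.zero_le N)
        rw [show (0 + 2) = 2 by rfl] at this
        rw [this]
        simp only [pow_zero, CharP.cast_eq_zero, zero_add, one_mul, Nat.choose_zero_right,
          Nat.cast_one, mul_one]
        apply div_ne_zero (by norm_num)
        positivity
      exact mul_ne_zero (mul_ne_zero h6 (hG.cc 2 le_rfl (by omega))) h5 h4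
    rw [← hf] at hsp
    have := crit_sign _ hsp 1 h0 h3 h1
    linarith

end

end Pool.Agent.H635Z
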