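import Pool.Agent.H635Z.F

set_option autoImplicit false

open Polynomial Finset Filter

namespace Pool.Agent.H635Z

lemma CC.eval {T : Type*} [TopologicalSpace T] {F : T → ℝ[X]} (hF : CC F) (n : ℕ)
    (hn : ∀ t, (F t).natDegree ≤ n) (x : ℝ) : Continuous fun t => (F t).eval x := by
  have : (fun t => (F t).eval x) = fun t => ∑ i ∈ range (n + 1), (F t).coeff i * x ^ i := by
    funext t
    exact eval_eq_sum_range' (Nat.lt_succ_of_le (hn t)) x
  rw [this]
  exact continuous_finsetSum _ (fun i _ => (hF i).mul continuous_const)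

lemma CC.eval' {T : Type*} [TopologicalSpace T] {F : T → ℝ[X]} (hF : CC F) (n : ℕ)
    (hn : ∀ t, (F t).natDegree ≤ n) (x : T → ℝ) (hx : Continuous x) :
    Continuous fun t => (F t).eval (x t) := by
  have : (fun t => (F t).eval (x t)) = fun t => ∑ i ∈ range (n + 1), (F t).coeff i * x t ^ i := by
    funext t
    exact eval_eq_sum_range' (Nat.lt_succ_of_le (hn t)) (x t)
  rw [this]
  exact continuous_finsetSum _ (fun i _ => (hF i).mul (hx.pow i))

lemma CC.fP {T : Type*} [TopologicalSpace T] {F : T → ℝ[X]} (hF : CC F) (n : ℕ) (G : ℝ[X]) :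
    CC (fun t => fP n G (F t)) := by
  intro j
  simp only [fP_coeff]
  split_ifs
  · exact continuous_const.mul (hF j)
  · exact continuous_const

lemma CC.derivative {T : Type*} [TopologicalSpace T] {F : T → ℝ[X]} (hF : CC F) :
    CC (fun t => derivative (F t)) := by
  intro j
  simp only [coeff_derivative]
  exact (hF _).mul continuous_const

lemma CC.comp {T : Type*} [TopologicalSpace T] {F : T → ℝ[X]} (hF : CC F) (n : ℕ) (W : ℝ[X]) :
    CC (fun t => comp n W (F t)) := by
  intro j
  simp only [comp_coeff]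
  split_ifs
  · exact ((continuous_const.mul (hF j)).mul continuous_const).div_const _
  · exact continuous_const

lemma CC.dX {T : Type*} [TopologicalSpace T] {F : T → ℝ[X]} (hF : CC F) :
    CC (fun t => dX (F t)) := by
  intro j
  simp only [dX_coeff]
  exact (hF _).mul continuous_const

lemma comp_natDegree (n : ℕ) (W r : ℝ[X]) : (comp n W r).natDegree ≤ n := by
  rw [natDegree_le_iff_coeff_eq_zero]
  intro k hk
  rw [comp_coeff, if_neg (by omega)]

lemma der_natDegree (n : ℕ) (F : ℝ[X]) (h : F.natDegree ≤ n) : (derivative F).natDegree ≤ n :=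
  (natDegree_derivative_le F).trans (by omega)

section
variable {ι : Type*} [Fintype ι] [DecidableEq ι] {N : ℕ} {G : ℝ[X]}

lemma PP_sc (a : ι → ℝ) (σ : ℝ) : PP (fun i => σ * a i) = sc σ (PP a) := by
  unfold PP sc
  rw [mul_comp, Polynomial.prod_comp]
  congr 1
  · apply prod_congr rfl
    intro i _
    simp only [sub_comp, one_comp, mul_comp, C_comp, X_comp, C_mul]
    ring
  · simp only [add_comp, one_comp, mul_comp, C_comp, X_comp]
    rw [← mul_sum, C_mul]
    ring

lemma PP_CC {T : Type*} [TopologicalSpace T] (a : ι → T → ℝ) (ha : ∀ i, Continuous (a i)) :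
    CC (fun t => PP (fun i => a i t)) := by
  unfold PP
  apply CC.mul
  · apply CC.prod
    intro i _
    exact CC.lin continuous_const (ha i)
  · have := CC.lin (T := T) (a := fun _ => 1) (b := fun t => -∑ i, a i t) continuous_const
      (continuous_finsetSum _ (fun i _ => ha i)).neg
    intro j
    have h := this j
    have e : (fun t => (1 + C (∑ i, a i t) * X : ℝ[X]).coeff j) =
        fun t => (C 1 - C (-∑ i, a i t) * X : ℝ[X]).coeff j := by
      funext t
      congr 1
      simp
    rw [e]; exact h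

/-- critical points of small polynomials are far away -/
lemma iso (hG : Gen N G) (hcard : Fintype.card ι = N + 1) : ∃ δ : ℝ, 0 < δ ∧ ∀ a : ι → ℝ,
    (∀ i, 0 ≤ a i) → (∃ i, a i ≠ 0) → (derivative (fP (N + 2) G (PP a))).eval 1 = 0 →
    δ ≤ ∑ i, a i := by
  set Θ : (ι → ℝ) × ℝ → ℝ := fun p => (comp N (dX G) (dX (PP p.1))).eval p.2 with hΘ
  have hΘc : Continuous Θ := by
    have h1 : CC (fun p : (ι → ℝ) × ℝ => comp N (dX G) (dX (PP p.1))) := by
      have h2 : CC (fun p : (ι → ℝ) × ℝ => PP (fun i => p.1 i)) :=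
        PP_CC (fun i (p : (ι → ℝ) × ℝ) => p.1 i) (fun i => (continuous_apply i).comp continuous_fst)
      exact h2.dX.comp N _
    exact h1.eval' N (fun _ => comp_natDegree _ _ _) _ continuous_snd
  set Z : Set ((ι → ℝ) × ℝ) := {p | (∀ i, 0 ≤ p.1 i) ∧ ∑ i, p.1 i = 1 ∧ 0 ≤ p.2 ∧ p.2 ≤ 1 ∧
    Θ p = 0} with hZ
  have hZc : IsCompact Z := by
    have hK : IsCompact ((Set.Icc (0 : ι → ℝ) 1) ×ˢ (Set.Icc (0 : ℝ) 1)) :=
      isCompact_Icc.prod isCompact_Icc
    apply hK.of_isClosed_subset
    · have e : Z = (⋂ i, {p : (ι → ℝ) × ℝ | 0 ≤ p.1 i}) ∩ {p | ∑ i, p.1 i = 1} ∩ {p | 0 ≤ p.2} ∩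
          {p | p.2 ≤ 1} ∩ {p | Θ p = 0} := by
        ext p
        simp only [hZ, Set.mem_ofPred_eq, Set.mem_inter_iff, Set.mem_iInter]
        tauto
      rw [e]
      have c1 : ∀ i, Continuous (fun p : (ι → ℝ) × ℝ => p.1 i) := fun i =>
        (continuous_apply i).comp continuous_fst
      refine ((((isClosed_iInter (fun i => isClosed_le continuous_const (c1 i))).inter
        (isClosed_eq (continuous_finsetSum _ (fun i _ => c1 i)) continuous_const)).inter
        (isClosed_le continuous_const continuous_snd)).inter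
        (isClosed_le continuous_snd continuous_const)).inter (isClosed_eq hΘc continuous_const)
    · rintro p ⟨h1, h2, h3, h4, _⟩
      refine ⟨⟨fun i => h1 i, fun i => ?_⟩, h3, h4⟩
      calc p.1 i ≤ ∑ j, p.1 j := single_le_sum (fun j _ => h1 j) (mem_univ i)
        _ = 1 := h2
  have key : ∀ a : ι → ℝ, (∀ i, 0 ≤ a i) → (∃ i, a i ≠ 0) →
      (derivative (fP (N + 2) G (PP a))).eval 1 = 0 → ∑ i, a i ≤ 1 →
      ((fun i => a i / ∑ j, a j), ∑ j, a j) ∈ Z := by
    intro a ha hne hd hle
    obtain ⟨i0, hi0⟩ := hne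
    have hA : 0 < ∑ j, a j := sum_pos' (fun j _ => ha j)
      ⟨i0, mem_univ _, lt_of_le_of_ne (ha i0) (Ne.symm hi0)⟩
    refine ⟨fun i => div_nonneg (ha i) hA.le, ?_, hA.le, hle, ?_⟩
    · show ∑ i, a i / ∑ j, a j = 1
      rw [← sum_div, div_self hA.ne']
    · show (comp N (dX G) (dX (PP (fun i => a i / ∑ j, a j)))).eval (∑ j, a j) = 0
      rw [f_deriv_one hG.c1] at hd
      have h1 := (mul_eq_zero.mp hd).resolve_left cN_ne
      have h2 : PP a = sc (∑ j, a j) (PP (fun i => a i / ∑ j, a j)) := by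
        rw [← PP_sc]
        congr 1
        funext i
        field_simp
      have h3 : comp N (dX G) (dX (PP a)) = C ((∑ j, a j) ^ 2) *
          sc (∑ j, a j) (comp N (dX G) (dX (PP (fun i => a i / ∑ j, a j)))) := by
        ext k
        rw [coeff_C_mul, sc_coeff, comp_coeff, comp_coeff, dX_coeff, dX_coeff (PP a), dX_coeff (PP _),
          h2, sc_coeff]
        split_ifs
        · rw [pow_add]; ring
        · ring
      rw [h3, eval_mul, eval_C, sc_eval, mul_one] at h1
      exact (mul_eq_zero.mp h1).resolve_left (by positivity)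
  by_cases hZe : Z.Nonempty
  · obtain ⟨p, hp, hmin⟩ := hZc.exists_isMinOn hZe continuous_snd.continuousOn
    have hp2 : 0 < p.2 := by
      rcases eq_or_lt_of_le hp.2.2.1 with h | h
      · exfalso
        have h1 := hp.2.2.2.2
        have hs := hp.2.1
        simp only [hΘ] at h1
        rw [← h, ← coeff_zero_eq_eval_zero, comp_coeff, if_pos (Nat.zero_le N)] at h1
        have hne : ∃ i, p.1 i ≠ 0 := by
          by_contra hcon
          push Not at hcon
          rw [sum_eq_zero (fun i _ => hcon i)] at hs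
          norm_num at hs
        have h2 := dX_PP_neg p.1 hp.1 hne 0 le_rfl
        rw [← coeff_zero_eq_eval_zero] at h2
        have h3 := hG.W_coeff 0 (Nat.zero_le N)
        simp at h1
        rcases h1 with h1 | h1
        · exact h3 h1
        · rw [h1] at h2; exact lt_irrefl _ h2
      · exact h
    refine ⟨min p.2 1, lt_min hp2 one_pos, ?_⟩
    intro a ha hne hd
    by_contra hlt
    push Not at hlt
    have h1 : ∑ i, a i ≤ 1 := (hlt.trans_le (min_le_right _ _)).le
    have h2 := key a ha hne hd h1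
    have h3 := hmin h2
    have h4 : p.2 ≤ ∑ i, a i := h3
    have h5 := hlt.trans_le (min_le_left p.2 1)
    linarith
  · refine ⟨1, one_pos, ?_⟩
    intro a ha hne hd
    by_contra hlt
    push Not at hlt
    exact hZe ⟨_, key a ha hne hd hlt.le⟩

end

end Pool.Agent.H635Z
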