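import Pool.Agent.H635Z.G

set_option autoImplicit false

open Polynomial Finset Filter

namespace Pool.Agent.H635Z

section
variable {ι : Type*} [Fintype ι] [DecidableEq ι] {N : ℕ} {G : ℝ[X]}

noncomputable def V0 (N : ℕ) (G P : ℝ[X]) : ℝ := (fP (N + 2) G P).eval 1
noncomputable def V1 (N : ℕ) (G P : ℝ[X]) : ℝ := (derivative (fP (N + 2) G P)).eval 1
noncomputable def V2 (N : ℕ) (G P : ℝ[X]) : ℝ :=
  (derivative (derivative (fP (N + 2) G P))).eval 1

lemma V0_C_mul (c : ℝ) (P : ℝ[X]) : V0 N G (C c * P) = c * V0 N G P := by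
  unfold V0; rw [fP_C_mul]; simp
lemma V1_C_mul (c : ℝ) (P : ℝ[X]) : V1 N G (C c * P) = c * V1 N G P := by
  unfold V1; rw [fP_C_mul]; simp
lemma V2_C_mul (c : ℝ) (P : ℝ[X]) : V2 N G (C c * P) = c * V2 N G P := by
  unfold V2; rw [fP_C_mul]; simp

lemma V0_cont {T : Type*} [TopologicalSpace T] {F : T → ℝ[X]} (hF : CC F) :
    Continuous fun t => V0 N G (F t) := (hF.fP _ _).eval (N + 2) (fun _ => fP_natDegree _ _ _) 1
lemma V1_cont {T : Type*} [TopologicalSpace T] {F : T → ℝ[X]} (hF : CC F) :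
    Continuous fun t => V1 N G (F t) :=
  (hF.fP _ _).derivative.eval (N + 2) (fun _ => der_natDegree _ _ (fP_natDegree _ _ _)) 1
lemma V2_cont {T : Type*} [TopologicalSpace T] {F : T → ℝ[X]} (hF : CC F) :
    Continuous fun t => V2 N G (F t) :=
  (hF.fP _ _).derivative.derivative.eval (N + 2)
    (fun _ => der_natDegree _ _ (der_natDegree _ _ (fP_natDegree _ _ _))) 1

/-- a wrong critical value at 1 -/
def Bad (N : ℕ) (G : ℝ[X]) (ε : ℝ) (a : ι → ℝ) : Prop :=
  (∀ i, 0 ≤ a i) ∧ (∃ i, a i ≠ 0) ∧ V1 N G (PP a) = 0 ∧ 0 ≤ ε * V0 N G (PP a) ∧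
    0 ≤ ε * V2 N G (PP a)

/-- projective parametrisation -/
noncomputable def PT (p : (ι → ℝ) × ℝ) : ℝ[X] :=
  (∏ i, (C (1 - p.1 i) - C (p.1 i) * X)) * (C (1 - p.2) - C (-p.2) * X)

lemma PT_CC : CC (fun p : (ι → ℝ) × ℝ => PT p) := by
  unfold PT
  have c1 : ∀ i, Continuous (fun p : (ι → ℝ) × ℝ => p.1 i) := fun i =>
    (continuous_apply i).comp continuous_fst
  apply CC.mul
  · exact CC.prod _ (fun i _ => CC.lin (continuous_const.sub (c1 i)) (c1 i))
  · exact CC.lin (continuous_const.sub continuous_snd) continuous_snd.neg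

lemma PT_coeff_zero (p : (ι → ℝ) × ℝ) : (PT p).coeff 0 = (∏ i, (1 - p.1 i)) * (1 - p.2) := by
  rw [coeff_zero_eq_eval_zero, PT]
  simp [eval_prod]

/-- from affine to projective parameters -/
lemma PT_of_PP (a : ι → ℝ) (ha : ∀ i, 0 ≤ a i) :
    PT (fun i => a i / (1 + a i), (∑ i, a i) / (1 + ∑ i, a i)) =
      C ((∏ i, (1 / (1 + a i))) * (1 / (1 + ∑ i, a i))) * PP a := by
  have hA : 0 ≤ ∑ i, a i := sum_nonneg (fun i _ => ha i)
  have e1 : ∀ b : ℝ, 0 ≤ b → (C (1 - b / (1 + b)) - C (b / (1 + b)) * X : ℝ[X]) =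
      C (1 / (1 + b)) * (1 - C b * X) := by
    intro b hb
    have hb' : (1 + b) ≠ 0 := by positivity
    rw [mul_sub, mul_one, ← mul_assoc, ← C_mul]
    congr 2
    · congr 1; field_simp; ring
    · congr 1; field_simp
  have e2 : (C (1 - (∑ i, a i) / (1 + ∑ i, a i)) - C (-((∑ i, a i) / (1 + ∑ i, a i))) * X : ℝ[X]) =
      C (1 / (1 + ∑ i, a i)) * (1 + C (∑ i, a i) * X) := by
    have hb' : (1 + ∑ i, a i) ≠ 0 := by positivity
    rw [mul_add, mul_one, ← mul_assoc, ← C_mul, C_neg, neg_mul, sub_neg_eq_add]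
    congr 2
    · congr 1; field_simp; ring
    · congr 1; field_simp
  unfold PT
  simp only
  rw [e2, prod_congr rfl (fun i _ => e1 (a i) (ha i)), prod_mul_distrib, PP, C_mul, map_prod]
  ring

/-- from projective to affine parameters -/
lemma PP_of_PT (p : (ι → ℝ) × ℝ) (h0 : ∀ i, 0 ≤ p.1 i) (h1 : ∀ i, p.1 i < 1) (h2 : p.2 < 1)
    (hc : (PT p).coeff 1 = 0) :
    PT p = C ((∏ i, (1 - p.1 i)) * (1 - p.2)) * PP (fun i => p.1 i / (1 - p.1 i)) ∧
      p.2 / (1 - p.2) = ∑ i, p.1 i / (1 - p.1 i) := by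
  set A := p.2 / (1 - p.2) with hA
  set c := (∏ i, (1 - p.1 i)) * (1 - p.2) with hcdef
  have hc0 : c ≠ 0 := by
    rw [hcdef]
    apply mul_ne_zero
    · exact (prod_pos (fun i _ => by have := h1 i; linarith)).ne'
    · linarith
  have e0 : PT p = C c * ((∏ i, (1 - C (p.1 i / (1 - p.1 i)) * X)) * (1 + C A * X)) := by
    have e1 : ∀ b : ℝ, b < 1 → (C (1 - b) - C b * X : ℝ[X]) =
        C (1 - b) * (1 - C (b / (1 - b)) * X) := by
      intro b hb
      have hb' : (1 - b) ≠ 0 := by linarith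
      rw [mul_sub, mul_one, ← mul_assoc, ← C_mul]
      congr 3
      field_simp
    have e2 : (C (1 - p.2) - C (-p.2) * X : ℝ[X]) = C (1 - p.2) * (1 + C A * X) := by
      have hb' : (1 - p.2) ≠ 0 := by linarith
      rw [mul_add, mul_one, ← mul_assoc, ← C_mul, C_neg, neg_mul, sub_neg_eq_add, hA]
      congr 3
      field_simp
    rw [PT, e2, prod_congr rfl (fun i _ => e1 (p.1 i) (h1 i)), prod_mul_distrib, hcdef, C_mul,
      map_prod]
    ring
  set a : ι → ℝ := fun i => p.1 i / (1 - p.1 i) with ha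
  have e3 : (∏ i, (1 - C (a i) * X)) * (1 + C A * X) = PP a + C (A - ∑ i, a i) *
      (X * ∏ i, (1 - C (a i) * X) : ℝ[X]) := by
    rw [PP, C_sub]; ring
  have e4 : A - ∑ i, a i = 0 := by
    rw [e0, show (∏ i, (1 - C (p.1 i / (1 - p.1 i)) * X : ℝ[X])) = ∏ i, (1 - C (a i) * X) from rfl,
      e3, coeff_C_mul, coeff_add, PP_coeff_one, coeff_C_mul, coeff_X_mul,
      coeff_zero_eq_eval_zero] at hc
    simp [eval_prod, hc0] at hc
    exact hc
  refine ⟨?_, by linarith⟩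
  rw [e0, show (∏ i, (1 - C (p.1 i / (1 - p.1 i)) * X : ℝ[X])) = ∏ i, (1 - C (a i) * X) from rfl,
      e3, e4]
  simp

lemma mul_self_ep {ε x y : ℝ} (hε : ε = 1 ∨ ε = -1) (hx : 0 ≤ ε * x) (hy : 0 ≤ ε * y) :
    0 ≤ x * y := by
  rcases hε with h | h <;> subst h <;> nlinarith

/-- existence of an extremal wrong critical value -/
lemma exists_max (hG : Gen N G) (hcard : Fintype.card ι = N + 1) (ε : ℝ) (hε : ε = 1 ∨ ε = -1)
    (a0 : ι → ℝ) (h0 : Bad N G ε a0) : ∃ a : ι → ℝ, Bad N G ε a ∧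
      ∀ b : ι → ℝ, Bad N G ε b → ε * V0 N G (PP b) ≤ ε * V0 N G (PP a) := by
  obtain ⟨δ, hδ, hiso⟩ := iso (ι := ι) hG hcard
  set η := δ / (1 + δ) with hη
  have hηpos : 0 < η := by positivity
  set 𝒱 : Set ((ι → ℝ) × ℝ) := {p | (∀ i, 0 ≤ p.1 i) ∧ (∀ i, p.1 i ≤ p.2) ∧ p.2 ≤ 1 ∧ η ≤ p.2 ∧
    (PT p).coeff 1 = 0 ∧ V1 N G (PT p) = 0 ∧ 0 ≤ ε * V0 N G (PT p) ∧ 0 ≤ ε * V2 N G (PT p)} with h𝒱
  have c1 : ∀ i, Continuous (fun p : (ι → ℝ) × ℝ => p.1 i) := fun i =>
    (continuous_apply i).comp continuous_fst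
  have hcpt : IsCompact 𝒱 := by
    have hK : IsCompact ((Set.Icc (0 : ι → ℝ) 1) ×ˢ (Set.Icc (0 : ℝ) 1)) :=
      isCompact_Icc.prod isCompact_Icc
    apply hK.of_isClosed_subset
    · have e : 𝒱 = (⋂ i, {p : (ι → ℝ) × ℝ | 0 ≤ p.1 i}) ∩ (⋂ i, {p | p.1 i ≤ p.2}) ∩
          {p | p.2 ≤ 1} ∩ {p | η ≤ p.2} ∩ {p | (PT p).coeff 1 = 0} ∩ {p | V1 N G (PT p) = 0} ∩
          {p | 0 ≤ ε * V0 N G (PT p)} ∩ {p | 0 ≤ ε * V2 N G (PT p)} := by
        ext p
        simp only [h𝒱, Set.mem_ofPred_eq, Set.mem_inter_iff, Set.mem_iInter]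
        tauto
      rw [e]
      exact (((((((isClosed_iInter (fun i => isClosed_le continuous_const (c1 i))).inter
        (isClosed_iInter (fun i => isClosed_le (c1 i) continuous_snd))).inter
        (isClosed_le continuous_snd continuous_const)).inter
        (isClosed_le continuous_const continuous_snd)).inter
        (isClosed_eq (PT_CC 1) continuous_const)).inter
        (isClosed_eq (V1_cont PT_CC) continuous_const)).inter
        (isClosed_le continuous_const (continuous_const.mul (V0_cont PT_CC)))).inter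
        (isClosed_le continuous_const (continuous_const.mul (V2_cont PT_CC)))
    · rintro p ⟨h1, h2, h3, h4, _⟩
      exact ⟨⟨fun i => h1 i, fun i => (h2 i).trans h3⟩, (hηpos.le.trans h4), h3⟩
  -- elements of 𝒱 are affine
  have hlt : ∀ p ∈ 𝒱, p.2 < 1 := by
    rintro p ⟨h1, h2, h3, h4, h5, h6, h7, h8⟩
    rcases eq_or_lt_of_le h3 with h | h
    · exfalso
      have h9 : (PT p).coeff 1 = ∏ i, (1 - p.1 i) := by
        rw [PT, h]
        have : (C (1 - (1 : ℝ)) - C (-1 : ℝ) * X : ℝ[X]) = X := by simp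
        rw [this, mul_comm, coeff_X_mul, coeff_zero_eq_eval_zero]
        simp [eval_prod]
      rw [h9, prod_eq_zero_iff] at h5
      obtain ⟨i, _, hi⟩ := h5
      have hi' : p.1 i = 1 := by linarith
      have e : PT p = -(X ^ 2 * ∏ l ∈ univ.erase i, (C (1 - p.1 l) - C (p.1 l) * X)) := by
        rw [PT, h, ← mul_prod_erase univ _ (mem_univ i), hi']
        simp only [sub_self, C_0, C_1, C_neg]
        ring
      unfold V1 at h6
      have h10 := mul_self_ep hε h7 h8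
      unfold V0 V2 at h10
      rw [e] at h6 h10
      refine typeII hG (univ.erase i) ?_ p.1 (fun l _ => h1 l) (fun l _ => (h2 l).trans h3) h6 h10
      rw [card_erase_of_mem (mem_univ i), card_univ, hcard]; rfl
    · exact h
  -- affine to projective
  have hmap : ∀ a : ι → ℝ, Bad N G ε a →
      (fun i => a i / (1 + a i), (∑ i, a i) / (1 + ∑ i, a i)) ∈ 𝒱 := by
    rintro a ⟨ha, hne, h1, h2, h3⟩
    have hA : 0 ≤ ∑ i, a i := sum_nonneg (fun i _ => ha i)
    have hdA := hiso a ha hne h1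
    set c := (∏ i, (1 / (1 + a i))) * (1 / (1 + ∑ i, a i)) with hc
    have hcpos : 0 < c := by
      rw [hc]
      apply mul_pos (prod_pos (fun i _ => by have := ha i; positivity))
      positivity
    have hmono : ∀ x y : ℝ, 0 ≤ x → x ≤ y → x / (1 + x) ≤ y / (1 + y) := by
      intro x y hx hxy
      rw [div_le_div_iff₀ (by positivity) (by linarith)]
      nlinarith
    have hPT := PT_of_PP a ha
    refine ⟨fun i => div_nonneg (ha i) (by have := ha i; linarith), fun i => ?_, ?_, ?_, ?_, ?_,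
      ?_, ?_⟩
    · exact hmono _ _ (ha i) (single_le_sum (fun j _ => ha j) (mem_univ i))
    · show (∑ i, a i) / (1 + ∑ i, a i) ≤ 1
      rw [div_le_one (by positivity)]; linarith
    · exact hmono _ _ hδ.le hdA
    · rw [hPT, coeff_C_mul, PP_coeff_one, mul_zero]
    · rw [hPT, V1_C_mul, h1, mul_zero]
    · rw [hPT, V0_C_mul, ← hc, show ε * (c * V0 N G (PP a)) = c * (ε * V0 N G (PP a)) by ring]
      exact mul_nonneg hcpos.le h2
    · rw [hPT, V2_C_mul, ← hc, show ε * (c * V2 N G (PP a)) = c * (ε * V2 N G (PP a)) by ring]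
      exact mul_nonneg hcpos.le h3
  have hcont : ContinuousOn (fun p : (ι → ℝ) × ℝ => ε * V0 N G (PT p) / (PT p).coeff 0) 𝒱 := by
    apply ContinuousOn.div
    · exact (continuous_const.mul (V0_cont PT_CC)).continuousOn
    · exact (PT_CC 0).continuousOn
    · intro p hp
      rw [PT_coeff_zero]
      have h2 := hlt p hp
      apply mul_ne_zero
      · exact (prod_pos (fun i _ => by have := hp.2.1 i; linarith)).ne'
      · linarith
  obtain ⟨p, hp, hmax⟩ := hcpt.exists_isMaxOn ⟨_, hmap a0 h0⟩ hcont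
  have hp1 : p.2 < 1 := hlt p hp
  have hp2 : ∀ i, p.1 i < 1 := fun i => (hp.2.1 i).trans_lt hp1
  obtain ⟨hPT, hA⟩ := PP_of_PT p hp.1 hp2 hp1 hp.2.2.2.2.1
  set a : ι → ℝ := fun i => p.1 i / (1 - p.1 i) with ha
  set c := (∏ i, (1 - p.1 i)) * (1 - p.2) with hc
  have hcpos : 0 < c := by
    rw [hc]
    exact mul_pos (prod_pos (fun i _ => by have := hp2 i; linarith)) (by linarith)
  have hbad : Bad N G ε a := by
    refine ⟨fun i => div_nonneg (hp.1 i) (by have := hp2 i; linarith), ?_, ?_, ?_, ?_⟩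
    · by_contra hcon
      push Not at hcon
      rw [sum_eq_zero (fun i _ => hcon i)] at hA
      have h3 : 0 < p.2 := hηpos.trans_le hp.2.2.2.1
      have h4 : 0 < p.2 / (1 - p.2) := div_pos h3 (by linarith)
      linarith
    · have := hp.2.2.2.2.2.1
      rw [hPT, V1_C_mul] at this
      exact (mul_eq_zero.mp this).resolve_left hcpos.ne'
    · have := hp.2.2.2.2.2.2.1
      rw [hPT, V0_C_mul, show ε * (c * V0 N G (PP a)) = c * (ε * V0 N G (PP a)) by ring] at this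
      exact nonneg_of_mul_nonneg_right this hcpos
    · have := hp.2.2.2.2.2.2.2
      rw [hPT, V2_C_mul, show ε * (c * V2 N G (PP a)) = c * (ε * V2 N G (PP a)) by ring] at this
      exact nonneg_of_mul_nonneg_right this hcpos
  refine ⟨a, hbad, ?_⟩
  intro b hb
  have h1 := hmax (hmap b hb)
  have h2 : ε * V0 N G (PT (fun i => b i / (1 + b i), (∑ i, b i) / (1 + ∑ i, b i))) /
      (PT (fun i => b i / (1 + b i), (∑ i, b i) / (1 + ∑ i, b i))).coeff 0 ≤
      ε * V0 N G (PT p) / (PT p).coeff 0 := h1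
  have hb0 := hb.1
  have hB : 0 ≤ ∑ i, b i := sum_nonneg (fun i _ => hb0 i)
  rw [PT_of_PP b hb0, hPT, V0_C_mul, V0_C_mul, coeff_C_mul, coeff_C_mul, PP_coeff_zero,
    PP_coeff_zero, mul_one, mul_one] at h2
  have hd : 0 < (∏ i, (1 / (1 + b i))) * (1 / (1 + ∑ i, b i)) :=
    mul_pos (prod_pos (fun i _ => by have := hb0 i; positivity)) (by positivity)
  rw [show ∀ x y : ℝ, ε * (x * y) / x = (x / x) * (ε * y) from fun x y => by ring,
    show ∀ x y : ℝ, ε * (x * y) / x = (x / x) * (ε * y) from fun x y => by ring,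
    div_self hd.ne', div_self hcpos.ne', one_mul, one_mul] at h2
  exact h2

end

end Pool.Agent.H635Z
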