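import Pool.Agent.H635Z.H

set_option autoImplicit false

open Polynomial Finset Filter Topology

namespace Pool.Agent.H635Z

/-- cubic with three real roots, coefficients -/
lemma cubic_coeffs (c2 c1 c0 x1 x2 x3 : ℝ) (h1 : x1 ^ 3 + c2 * x1 ^ 2 + c1 * x1 + c0 = 0)
    (h2 : x2 ^ 3 + c2 * x2 ^ 2 + c1 * x2 + c0 = 0) (h3 : x3 ^ 3 + c2 * x3 ^ 2 + c1 * x3 + c0 = 0)
    (h12 : x1 < x2) (h23 : x2 < x3) :
    c2 = -(x1 + x2 + x3) ∧ c1 = x1 * x2 + x1 * x3 + x2 * x3 ∧ c0 = -(x1 * x2 * x3) := by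
  have a1 : x1 - x2 ≠ 0 := by linarith
  have a2 : x2 - x3 ≠ 0 := by linarith
  have a3 : x1 - x3 ≠ 0 := by linarith
  have b1 : x1 ^ 2 + x1 * x2 + x2 ^ 2 + c2 * (x1 + x2) + c1 = 0 := by
    apply mul_left_cancel₀ a1; linear_combination h1 - h2
  have b2 : x1 ^ 2 + x1 * x3 + x3 ^ 2 + c2 * (x1 + x3) + c1 = 0 := by
    apply mul_left_cancel₀ a3; linear_combination h1 - h3
  have b3 : x1 + x2 + x3 + c2 = 0 := by
    apply mul_left_cancel₀ a2; linear_combination b1 - b2
  have e2 : c2 = -(x1 + x2 + x3) := by linarith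
  have e1 : c1 = x1 * x2 + x1 * x3 + x2 * x3 := by rw [e2] at b1; linear_combination b1
  refine ⟨e2, e1, ?_⟩
  rw [e2, e1] at h1
  linear_combination h1

lemma cubic_perturb (p q A d2 d3 : ℝ) (hp : 0 < p) (hpq : p < q) (hA : 0 < A) :
    ∀ᶠ τ in 𝓝 (0 : ℝ), ∃ p' q' A' : ℝ, 0 < p' ∧ 0 < q' ∧ 0 < A' ∧ A' - p' - q' = A - p - q ∧
      p' * q' - A' * (p' + q') = p * q - A * (p + q) + τ * d2 ∧
      p' * q' * A' = p * q * A + τ * d3 := by
  set F : ℝ → ℝ → ℝ := fun τ x => x ^ 3 + (A - p - q) * x ^ 2 + (p * q - A * (p + q) + τ * d2) * x +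
    (p * q * A + τ * d3) with hF
  have hFx : ∀ τ, Continuous (F τ) := by intro τ; simp only [hF]; fun_prop
  have hFτ : ∀ x, Continuous (fun τ => F τ x) := by intro x; simp only [hF]; fun_prop
  have e0 : ∀ x, F 0 x = (x - p) * (x - q) * (x + A) := by intro x; simp only [hF]; ring
  have s1 : ∀ᶠ τ in 𝓝 (0 : ℝ), F τ (-A - 1) < 0 := by
    apply (hFτ _).continuousAt.eventually_lt_const
    show F 0 _ < 0
    rw [e0]
    have h1 : 0 < A + 1 + p := by linarith
    have h2 : 0 < A + 1 + q := by linarith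
    nlinarith [mul_pos h1 h2]
  have s2 : ∀ᶠ τ in 𝓝 (0 : ℝ), 0 < F τ 0 := by
    apply (hFτ _).continuousAt.eventually_const_lt
    show 0 < F 0 _
    rw [e0]
    have : 0 < p * q * A := mul_pos (mul_pos hp (by linarith)) hA
    linarith
  have s3 : ∀ᶠ τ in 𝓝 (0 : ℝ), F τ ((p + q) / 2) < 0 := by
    apply (hFτ _).continuousAt.eventually_lt_const
    show F 0 _ < 0
    rw [e0]
    have h1 : 0 < (q - p) / 2 := by linarith
    have h2 : 0 < (p + q) / 2 + A := by linarith
    have : ((p + q) / 2 - p) * ((p + q) / 2 - q) * ((p + q) / 2 + A) =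
        -((q - p) / 2 * ((q - p) / 2) * ((p + q) / 2 + A)) := by ring
    rw [this]
    have := mul_pos (mul_pos h1 h1) h2
    linarith
  have s4 : ∀ᶠ τ in 𝓝 (0 : ℝ), 0 < F τ (q + 1) := by
    apply (hFτ _).continuousAt.eventually_const_lt
    show 0 < F 0 _
    rw [e0]
    have h1 : 0 < q + 1 - p := by linarith
    have h2 : 0 < q + 1 - q := by linarith
    have h3 : 0 < q + 1 + A := by linarith
    exact mul_pos (mul_pos h1 h2) h3
  filter_upwards [s1, s2, s3, s4] with τ t1 t2 t3 t4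
  obtain ⟨x1, hx1, r1⟩ := intermediate_value_Ioo (by linarith : -A - 1 ≤ 0)
    (hFx τ).continuousOn ⟨t1, t2⟩
  obtain ⟨x2, hx2, r2⟩ := intermediate_value_Ioo' (by linarith : (0 : ℝ) ≤ (p + q) / 2)
    (hFx τ).continuousOn ⟨t3, t2⟩
  obtain ⟨x3, hx3, r3⟩ := intermediate_value_Ioo (by linarith : (p + q) / 2 ≤ q + 1)
    (hFx τ).continuousOn ⟨t3, t4⟩
  obtain ⟨k2, k1, k0⟩ := cubic_coeffs _ _ _ x1 x2 x3 r1 r2 r3 (by linarith [hx1.2, hx2.1])
    (by linarith [hx2.2, hx3.1])
  refine ⟨x2, x3, -x1, hx2.1, by linarith [hx3.1, hx2.1, hx2.2], by linarith [hx1.2], ?_, ?_, ?_⟩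
  · linarith
  · linear_combination -k1
  · linear_combination -k0

/-- perturbation of a nondegenerate local minimum -/
lemma local_min_perturb (φ η : ℝ[X]) (h1 : (derivative φ).eval 1 = 0)
    (h2 : 0 < (derivative (derivative φ)).eval 1) (h3 : 0 < η.eval 1) :
    ∀ᶠ τ in 𝓝[>] (0 : ℝ), ∃ σ : ℝ, 0 < σ ∧ (derivative (φ + C τ * η)).eval σ = 0 ∧
      φ.eval 1 < (φ + C τ * η).eval σ ∧ 0 ≤ (derivative (derivative (φ + C τ * η))).eval σ := by
  -- algebraic factorisations
  obtain ⟨q1, hq1⟩ := dvd_iff_isRoot.mpr (show IsRoot (derivative φ) 1 from h1)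
  have hφ1 : IsRoot (φ - C (φ.eval 1)) 1 := by simp
  obtain ⟨g, hg⟩ := dvd_iff_isRoot.mpr hφ1
  have hg1 : g.eval 1 = 0 := by
    have := congrArg (fun P => (derivative P).eval 1) hg
    simp only [derivative_sub, derivative_C, sub_zero, derivative_mul, derivative_X, eval_add,
      eval_mul, one_mul, eval_sub, eval_X, eval_C, sub_self, zero_mul, add_zero] at this
    rw [← this, h1]
  obtain ⟨q, hq⟩ := dvd_iff_isRoot.mpr (show IsRoot g 1 from hg1)
  have hφq : φ = C (φ.eval 1) + (X - C 1) * ((X - C 1) * q) := by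
    rw [← hq, ← hg]; ring
  have hq1pos : 0 < q1.eval 1 := by
    have : (derivative (derivative φ)).eval 1 = q1.eval 1 := by
      rw [hq1]; simp [derivative_mul]
    rw [← this]; exact h2
  have hqpos : 0 < q.eval 1 := by
    have : (derivative (derivative φ)).eval 1 = 2 * q.eval 1 := by
      rw [hφq]; simp [derivative_mul]; ring
    linarith
  have hc2 : Continuous (fun t : ℝ × ℝ => (derivative (derivative (φ + C t.1 * η))).eval t.2) := by
    simp only [derivative_add, derivative_C_mul, eval_add, eval_mul, eval_C]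
    fun_prop
  have hE : ∀ᶠ t : ℝ × ℝ in 𝓝 ((0 : ℝ), (1 : ℝ)),
      0 < (derivative (derivative (φ + C t.1 * η))).eval t.2 := by
    apply hc2.continuousAt.eventually_const_lt
    simpa using h2
  rw [nhds_prod_eq] at hE
  obtain ⟨pa, hpa, pb, hpb, hE⟩ := eventually_prod_iff.mp hE
  have hEx : ∀ᶠ x in 𝓝 (1 : ℝ), pb x ∧ 0 < η.eval x ∧ 0 < q.eval x ∧ 0 < q1.eval x := by
    have k1 : ∀ᶠ x in 𝓝 (1 : ℝ), 0 < η.eval x := η.continuous.continuousAt.eventually_const_lt h3
    have k2 : ∀ᶠ x in 𝓝 (1 : ℝ), 0 < q.eval x := q.continuous.continuousAt.eventually_const_lt hqpos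
    have k3 : ∀ᶠ x in 𝓝 (1 : ℝ), 0 < q1.eval x :=
      q1.continuous.continuousAt.eventually_const_lt hq1pos
    filter_upwards [hpb, k1, k2, k3] with x a1 a2 a3 a4 using ⟨a1, a2, a3, a4⟩
  rw [Metric.eventually_nhds_iff] at hEx
  obtain ⟨ρ0, hρ0, hEx⟩ := hEx
  set ρ := min (ρ0 / 2) (1 / 2) with hρ
  have hρpos : 0 < ρ := by rw [hρ]; positivity
  have hρ1 : ρ ≤ 1 / 2 := min_le_right _ _
  have hρ2 : ρ < ρ0 := (min_le_left _ _).trans_lt (by linarith)
  have hin : ∀ x, x ∈ Set.Icc (1 - ρ) (1 + ρ) → pb x ∧ 0 < η.eval x ∧ 0 < q.eval x ∧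
      0 < q1.eval x := by
    intro x hx
    apply hEx
    rw [Real.dist_eq, abs_lt]
    constructor <;> linarith [hx.1, hx.2]
  have hd : ∀ τ x, (derivative (φ + C τ * η)).eval x = (x - 1) * q1.eval x +
      τ * (derivative η).eval x := by
    intro τ x
    rw [derivative_add, hq1, derivative_C_mul]
    simp
  have hl : ∀ᶠ τ in 𝓝 (0 : ℝ), (derivative (φ + C τ * η)).eval (1 - ρ) < 0 := by
    simp only [hd]
    have hc : Continuous (fun τ : ℝ => (1 - ρ - 1) * q1.eval (1 - ρ) +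
      τ * (derivative η).eval (1 - ρ)) := by fun_prop
    apply hc.continuousAt.eventually_lt_const
    have := (hin (1 - ρ) ⟨le_rfl, by linarith⟩).2.2.2
    nlinarith [mul_pos hρpos this]
  have hr : ∀ᶠ τ in 𝓝 (0 : ℝ), 0 < (derivative (φ + C τ * η)).eval (1 + ρ) := by
    simp only [hd]
    have hc : Continuous (fun τ : ℝ => (1 + ρ - 1) * q1.eval (1 + ρ) +
      τ * (derivative η).eval (1 + ρ)) := by fun_prop
    apply hc.continuousAt.eventually_const_lt
    have := (hin (1 + ρ) ⟨by linarith, le_rfl⟩).2.2.2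
    nlinarith [mul_pos hρpos this]
  filter_upwards [nhdsWithin_le_nhds hl, nhdsWithin_le_nhds hr, nhdsWithin_le_nhds hpa,
    self_mem_nhdsWithin] with τ b1 b2 b3 b4
  have hτ : 0 < τ := b4
  obtain ⟨σ, hσ, hσ0⟩ := intermediate_value_Icc (by linarith : 1 - ρ ≤ 1 + ρ)
    ((derivative (φ + C τ * η)).continuous.continuousOn) ⟨b1.le, b2.le⟩
  obtain ⟨e1, e2, e3, _⟩ := hin σ hσ
  refine ⟨σ, by linarith [hσ.1], hσ0, ?_, (hE b3 e1).le⟩
  have : (φ + C τ * η).eval σ = φ.eval 1 + (σ - 1) ^ 2 * q.eval σ + τ * η.eval σ := by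
    conv_lhs => rw [hφq]
    simp; ring
  rw [this]
  have h5 : 0 ≤ (σ - 1) ^ 2 * q.eval σ := mul_nonneg (sq_nonneg _) e3.le
  have h6 : 0 < τ * η.eval σ := mul_pos hτ e2
  linarith

section
variable {ι : Type*} [Fintype ι] [DecidableEq ι] {N : ℕ} {G : ℝ[X]}

/-- at the extremal point every admissible direction has zero value -/
lemma direction_zero (hG : Gen N G) (hcard : Fintype.card ι = N + 1) (ε : ℝ)
    (hε : ε = 1 ∨ ε = -1) (a : ι → ℝ) (ha : Bad N G ε a)
    (hmax : ∀ b : ι → ℝ, Bad N G ε b → ε * V0 N G (PP b) ≤ ε * V0 N G (PP a)) (i j : ι)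
    (hi : 0 < a i) (hij : a i < a j) (d2 d3 : ℝ)
    (hpos : 0 < ε * V0 N G (X ^ 2 * ((∏ l ∈ (univ.erase i).erase j, (1 - C (a l) * X)) *
      (C d2 + C d3 * X)))) : False := by
  have hne : i ≠ j := by rintro rfl; exact lt_irrefl _ hij
  set Ω : ℝ[X] := ∏ l ∈ (univ.erase i).erase j, (1 - C (a l) * X) with hΩ
  set A := ∑ l, a l with hA
  have hApos : 0 < A := sum_pos' (fun l _ => ha.1 l) ⟨i, mem_univ i, hi⟩
  have hmem : j ∈ univ.erase i := by simp [hne.symm]
  have hprod : ∀ b : ι → ℝ, (∏ l, (1 - C (b l) * X) : ℝ[X]) = (1 - C (b i) * X) *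
      ((1 - C (b j) * X) * ∏ l ∈ (univ.erase i).erase j, (1 - C (b l) * X)) := by
    intro b
    rw [mul_prod_erase (univ.erase i) (fun l => (1 - C (b l) * X : ℝ[X])) hmem,
      mul_prod_erase univ (fun l => (1 - C (b l) * X : ℝ[X])) (mem_univ i)]
  have hsum : ∀ b : ι → ℝ, ∑ l, b l = b i + (b j + ∑ l ∈ (univ.erase i).erase j, b l) := by
    intro b
    rw [add_sum_erase (univ.erase i) b hmem, add_sum_erase univ b (mem_univ i)]
  set R : ℝ[X] := X ^ 2 * (Ω * (C d2 + C d3 * X)) with hR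
  -- perturbation of the roots
  have h1 : ∀ᶠ τ in 𝓝[>] (0 : ℝ), ∃ b : ι → ℝ, (∀ l, 0 ≤ b l) ∧ (∃ l, b l ≠ 0) ∧
      PP b = PP a + C τ * R := by
    filter_upwards [nhdsWithin_le_nhds (cubic_perturb (a i) (a j) A d2 d3 hi hij hApos)]
      with τ ⟨p', q', A', hp', hq', hA', e1, e2, e3⟩
    set b : ι → ℝ := Function.update (Function.update a i p') j q' with hb
    have hbi : b i = p' := by
      rw [hb, Function.update_of_ne hne, Function.update_self]
    have hbj : b j = q' := by rw [hb, Function.update_self]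
    have hbl : ∀ l ∈ (univ.erase i).erase j, b l = a l := by
      intro l hl
      rw [mem_erase, mem_erase] at hl
      rw [hb, Function.update_of_ne hl.1, Function.update_of_ne hl.2.1]
    refine ⟨b, ?_, ⟨i, by rw [hbi]; exact hp'.ne'⟩, ?_⟩
    · intro l
      by_cases h : l = j
      · rw [h, hbj]; exact hq'.le
      · by_cases h' : l = i
        · rw [h', hbi]; exact hp'.le
        · rw [hbl l (by simp [h, h'])]; exact ha.1 l
    · have hsb : ∑ l, b l = A' := by
        have s1 := hsum b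
        have s2 := hsum a
        rw [sum_congr rfl hbl, hbi, hbj] at s1
        rw [← hA] at s2
        linarith
      have hΩb : ∏ l ∈ (univ.erase i).erase j, (1 - C (b l) * X : ℝ[X]) = Ω :=
        prod_congr rfl (fun l hl => by rw [hbl l hl])
      rw [PP, hprod b, hΩb, hbi, hbj, hsb, PP, hprod a, ← hΩ, ← hA, hR]
      have f1 : (C A' - C p' - C q' : ℝ[X]) = C A - C (a i) - C (a j) := by
        rw [← C_sub, ← C_sub, e1, C_sub, C_sub]
      have f2 : (C p' * C q' - C A' * (C p' + C q') : ℝ[X]) =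
          C (a i) * C (a j) - C A * (C (a i) + C (a j)) + C τ * C d2 := by
        rw [← C_mul, ← C_add, ← C_mul, ← C_sub, e2]
        simp only [C_add, C_sub, C_mul]
      have f3 : (C p' * C q' * C A' : ℝ[X]) = C (a i) * C (a j) * C A + C τ * C d3 := by
        rw [← C_mul, ← C_mul, e3]
        simp only [C_add, C_mul]
      linear_combination (Ω * X) * f1 + (Ω * X ^ 2) * f2 + (Ω * X ^ 3) * f3
  -- perturbation of the critical point
  have hV2 : 0 < ε * V2 N G (PP a) := by
    rcases eq_or_lt_of_le ha.2.2.2.2 with h | h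
    · exfalso
      have hε0 : ε ≠ 0 := by rcases hε with h | h <;> rw [h] <;> norm_num
      have h0 : V2 N G (PP a) = 0 := (mul_eq_zero.mp h.symm).resolve_left hε0
      exact nondeg hG hcard a ha.1 ha.2.1 ha.2.2.1 h0
    · exact h
  have h2 := local_min_perturb (C ε * fP (N + 2) G (PP a)) (C ε * fP (N + 2) G R)
    (by
      have := ha.2.2.1
      unfold V1 at this
      simp [this])
    (by
      unfold V2 at hV2
      simpa using hV2)
    (by
      unfold V0 at hpos
      simpa using hpos)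
  obtain ⟨τ, ⟨b, hb0, hb1, hb2⟩, σ, hσ, s1, s2, s3⟩ := (h1.and h2).exists
  have hfb : fP (N + 2) G (PP b) = fP (N + 2) G (PP a) + C τ * fP (N + 2) G R := by
    rw [hb2, fP_add, fP_C_mul]
  have hcomb : C ε * fP (N + 2) G (PP a) + C τ * (C ε * fP (N + 2) G R) =
      C ε * fP (N + 2) G (PP b) := by rw [hfb]; ring
  rw [hcomb] at s1 s2 s3
  rw [derivative_C_mul, eval_mul, eval_C] at s1
  rw [derivative_C_mul, derivative_C_mul, eval_mul, eval_C] at s3
  rw [eval_mul, eval_C, eval_mul, eval_C] at s2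
  have hε0 : ε ≠ 0 := by rcases hε with h | h <;> rw [h] <;> norm_num
  have s1' := (mul_eq_zero.mp s1).resolve_left hε0
  -- rescale
  have hsc : fP (N + 2) G (PP (fun l => σ * b l)) = sc σ (fP (N + 2) G (PP b)) := by
    rw [PP_sc, fP_sc]
  have w0 : V0 N G (PP (fun l => σ * b l)) = (fP (N + 2) G (PP b)).eval σ := by
    unfold V0; rw [hsc, sc_eval, mul_one]
  have w1 : V1 N G (PP (fun l => σ * b l)) = 0 := by
    unfold V1; rw [hsc, sc_deriv, eval_mul, sc_eval, mul_one, s1', mul_zero]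
  have w2 : V2 N G (PP (fun l => σ * b l)) =
      σ ^ 2 * (derivative (derivative (fP (N + 2) G (PP b)))).eval σ := by
    unfold V2
    rw [hsc, sc_deriv, derivative_C_mul, sc_deriv, eval_mul, eval_C, eval_mul, eval_C, sc_eval,
      mul_one]
    ring
  have hV0a : V0 N G (PP a) = (fP (N + 2) G (PP a)).eval 1 := rfl
  have hbad : Bad N G ε (fun l => σ * b l) := by
    refine ⟨fun l => mul_nonneg hσ.le (hb0 l), ?_, w1, ?_, ?_⟩
    · obtain ⟨l, hl⟩ := hb1
      exact ⟨l, mul_ne_zero hσ.ne' hl⟩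
    · rw [w0]
      have := ha.2.2.2.1
      rw [hV0a] at this
      linarith
    · rw [w2]
      have : ε * (σ ^ 2 * (derivative (derivative (fP (N + 2) G (PP b)))).eval σ) =
          σ ^ 2 * (ε * (derivative (derivative (fP (N + 2) G (PP b)))).eval σ) := by ring
      rw [this]
      exact mul_nonneg (sq_nonneg _) s3
  have := hmax _ hbad
  rw [w0, hV0a] at this
  linarith

/-- no wrong critical values -/
lemma no_bad (hG : Gen N G) (hcard : Fintype.card ι = N + 1) (ε : ℝ) (hε : ε = 1 ∨ ε = -1)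
    (a0 : ι → ℝ) (h0 : Bad N G ε a0) : False := by
  obtain ⟨a, ha, hmax⟩ := exists_max hG hcard ε hε a0 h0
  obtain ⟨i0, hi0⟩ := ha.2.1
  have hi0' : 0 < a i0 := lt_of_le_of_ne (ha.1 i0) (Ne.symm hi0)
  -- two different positive values are impossible
  have key : ∀ i j : ι, 0 < a i → a i < a j → False := by
    intro i j hi hij
    have hne : i ≠ j := by rintro rfl; exact lt_irrefl _ hij
    have hz : ∀ d2 d3 : ℝ, V0 N G (X ^ 2 * ((∏ l ∈ (univ.erase i).erase j, (1 - C (a l) * X)) *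
        (C d2 + C d3 * X))) = 0 := by
      intro d2 d3
      by_contra hcon
      have hε0 : ε ≠ 0 := by rcases hε with h | h <;> rw [h] <;> norm_num
      have hcon' := mul_ne_zero hε0 hcon
      rcases lt_or_gt_of_ne hcon' with h | h
      · apply direction_zero hG hcard ε hε a ha hmax i j hi hij (-d2) (-d3)
        have e : (X ^ 2 * ((∏ l ∈ (univ.erase i).erase j, (1 - C (a l) * X)) *
            (C (-d2) + C (-d3) * X)) : ℝ[X]) = C (-1) * (X ^ 2 *
            ((∏ l ∈ (univ.erase i).erase j, (1 - C (a l) * X)) * (C d2 + C d3 * X))) := by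
          simp only [C_neg, C_1]; ring
        rw [e, V0_C_mul]
        linarith
      · exact direction_zero hG hcard ε hε a ha hmax i j hi hij d2 d3 h
    have hsc : ((univ.erase i).erase j).card + 1 = N := by
      have hmem : j ∈ univ.erase i := by simp [hne.symm]
      have h1 := card_erase_add_one hmem
      have h2 := card_erase_add_one (mem_univ i)
      rw [card_univ, hcard] at h2
      omega
    have hcomp : ∀ r : ℝ[X], V0 N G (X ^ 2 * r) = 0 → (comp N (dX G) r).eval 1 = 0 := by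
      intro r hr
      unfold V0 at hr
      rw [fP_X2, eval_mul, eval_C, eval_mul, eval_pow, eval_X, one_pow, one_mul] at hr
      exact (mul_eq_zero.mp hr).resolve_left cN_ne
    have k1 := hcomp _ (hz 1 0)
    have k2 := hcomp _ (hz 0 1)
    have e1 : ((∏ l ∈ (univ.erase i).erase j, (1 - C (a l) * X)) * (C 1 + C 0 * X) : ℝ[X]) =
        ∏ l ∈ (univ.erase i).erase j, (1 - C (a l) * X) := by simp
    have e2 : ((∏ l ∈ (univ.erase i).erase j, (1 - C (a l) * X)) * (C 0 + C 1 * X) : ℝ[X]) =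
        X * ∏ l ∈ (univ.erase i).erase j, (1 - C (a l) * X) := by
      simp only [C_0, C_1]; ring
    rw [e1] at k1
    rw [e2] at k2
    rw [← hsc] at k1 k2
    have hW0 : dX G ≠ 0 := by
      intro h
      have := hG.W_coeff 0 (Nat.zero_le N)
      rw [h] at this
      simp at this
    exact comp_strict ((univ.erase i).erase j) a (dX G) hG.W_splits hW0
      (by rw [hsc, hG.W_natDegree]) hG.W_smp k1 k2
  have hall : ∀ i, a i = 0 ∨ a i = a i0 := by
    intro i
    rcases eq_or_lt_of_le (ha.1 i) with h | h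
    · left; exact h.symm
    · right
      rcases lt_trichotomy (a i) (a i0) with h1 | h1 | h1
      · exact (key i i0 h h1).elim
      · exact h1
      · exact (key i0 i hi0' h1).elim
  exact one_cluster hG hcard a (a i0) hi0' hall ha.2.1 ha.2.2.1
    (mul_self_ep hε ha.2.2.2.1 ha.2.2.2.2)

end

end Pool.Agent.H635Z
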