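import Pool.Agent.H635Z.I

set_option autoImplicit false

open Polynomial Finset Filter Topology

namespace Pool.Agent.H635Z

lemma CC.aeval {T : Type*} [TopologicalSpace T] {F : T → ℝ[X]} (hF : CC F) (n : ℕ)
    (hn : ∀ t, (F t).natDegree ≤ n) (z : ℂ) : Continuous fun t => Polynomial.aeval z (F t) := by
  have : (fun t => Polynomial.aeval z (F t)) =
      fun t => ∑ j ∈ range (n + 1), ((F t).coeff j : ℂ) * z ^ j := by
    funext t
    exact aeval_sum' n (F t) (hn t) z
  rw [this]
  exact continuous_finsetSum _ (fun i _ =>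
    (Complex.continuous_ofReal.comp (hF i)).mul continuous_const)

lemma isClosed_splits {F : ℝ → ℝ[X]} (hF : CC F) (n : ℕ) (hn : ∀ t, (F t).natDegree ≤ n) :
    IsClosed {t | (F t).Splits} := by
  rw [← closure_subset_iff_isClosed]
  intro t ht
  have : (𝓝[{t | (F t).Splits}] t).NeBot := mem_closure_iff_nhdsWithin_neBot.mp ht
  refine splits_of_tendsto (l := 𝓝[{t | (F t).Splits}] t) F (F t) self_mem_nhdsWithin ?_
  intro z
  exact ((hF.aeval n hn z).tendsto t).mono_left nhdsWithin_le_nhds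

lemma Gen.neg {N : ℕ} {G : ℝ[X]} (h : Gen N G) : Gen N (sc (-1) G) := by
  have e : sc (-1) G = G.comp (-X) := by unfold sc; simp
  have hd : (sc (-1) G).natDegree = N + 2 := by
    apply le_antisymm
    · rw [natDegree_le_iff_coeff_eq_zero]
      intro k hk
      rw [sc_coeff, coeff_eq_zero_of_natDegree_lt (by rw [h.dg]; exact hk), zero_mul]
    · apply le_natDegree_of_ne_zero
      rw [sc_coeff]
      exact mul_ne_zero (h.cc _ (by omega) le_rfl) (pow_ne_zero _ (by norm_num))
  refine ⟨?_, hd, ?_, ?_, ?_, ?_⟩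
  · rw [e]; exact h.sp.comp_neg_X
  · intro t h1 h2
    rw [sc_eval] at h1
    rw [sc_deriv, eval_mul, eval_C, sc_eval] at h2
    exact h.sm _ h1 (by linarith)
  · rw [sc_coeff, h.c0]; simp
  · rw [sc_coeff, h.c1]; simp
  · intro i h1 h2
    rw [sc_coeff]
    exact mul_ne_zero (h.cc i h1 h2) (pow_ne_zero _ (by norm_num))

section
variable {ι : Type*} [Fintype ι] [DecidableEq ι] {N : ℕ} {G : ℝ[X]}

lemma lin_natDegree (b : ℝ) (hb : b ≠ 0) : (1 - C b * X : ℝ[X]).natDegree = 1 := by
  have : (1 - C b * X : ℝ[X]) = C (-b) * X + C 1 := by simp; ring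
  rw [this]
  exact natDegree_linear (neg_ne_zero.mpr hb)

lemma lin_ne_zero (b : ℝ) : (1 - C b * X : ℝ[X]) ≠ 0 := by
  intro h
  have := congrArg (fun P => P.coeff 0) h
  simp at this

lemma prod_natDegree {κ : Type*} (s : Finset κ) (c : κ → ℝ) (hc : ∀ i ∈ s, c i ≠ 0) :
    (∏ i ∈ s, (1 - C (c i) * X) : ℝ[X]).natDegree = s.card := by
  rw [natDegree_prod _ _ (fun i _ => lin_ne_zero _)]
  rw [sum_congr rfl (fun i hi => lin_natDegree (c i) (hc i hi))]
  simp

lemma PP_top (hcard : Fintype.card ι = N + 1) (a : ι → ℝ) (ha : ∀ i, 0 < a i) :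
    (PP a).coeff (N + 2) ≠ 0 := by
  have hne : Nonempty ι := by
    rw [← Fintype.card_pos_iff, hcard]; omega
  have hA : (∑ i, a i) ≠ 0 := (sum_pos (fun i _ => ha i) univ_nonempty).ne'
  have h1 : (PP a).natDegree = N + 2 := by
    unfold PP
    rw [natDegree_mul, prod_natDegree univ a (fun i _ => (ha i).ne'), card_univ, hcard]
    · have : (1 + C (∑ i, a i) * X : ℝ[X]) = 1 - C (-∑ i, a i) * X := by simp
      rw [this, lin_natDegree _ (neg_ne_zero.mpr hA)]
    · exact prod_ne_zero_iff.mpr (fun i _ => lin_ne_zero _)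
    · have : (1 + C (∑ i, a i) * X : ℝ[X]) = 1 - C (-∑ i, a i) * X := by simp
      rw [this]; exact lin_ne_zero _
  rw [← h1, coeff_natDegree]
  apply leadingCoeff_ne_zero.mpr
  intro h
  have := PP_coeff_zero a
  rw [h] at this
  simp at this

lemma kap_zero (n : ℕ) : kap n 0 = 1 := by simp [kap]

lemma fP_coeff_zero (hG : G.coeff 0 = 1) (a : ι → ℝ) : (fP (N + 2) G (PP a)).coeff 0 = 1 := by
  rw [fP_coeff, if_pos (by omega), kap_zero, hG, PP_coeff_zero]; norm_num

lemma no_double_root_pos (hG : Gen N G) (hcard : Fintype.card ι = N + 1) (b : ι → ℝ)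
    (hb : ∀ i, 0 ≤ b i) (hb' : ∃ i, b i ≠ 0) (x : ℝ) (hx : 0 < x)
    (h1 : (fP (N + 2) G (PP b)).eval x = 0)
    (h2 : (derivative (fP (N + 2) G (PP b))).eval x = 0) : False := by
  have hsc : fP (N + 2) G (PP (fun l => x * b l)) = sc x (fP (N + 2) G (PP b)) := by
    rw [PP_sc, fP_sc]
  have w0 : V0 N G (PP (fun l => x * b l)) = 0 := by
    unfold V0; rw [hsc, sc_eval, mul_one, h1]
  have w1 : V1 N G (PP (fun l => x * b l)) = 0 := by
    unfold V1; rw [hsc, sc_deriv, eval_mul, sc_eval, mul_one, h2, mul_zero]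
  have hn : ∀ i, 0 ≤ x * b i := fun i => mul_nonneg hx.le (hb i)
  have hn' : ∃ i, x * b i ≠ 0 := by
    obtain ⟨i, hi⟩ := hb'
    exact ⟨i, mul_ne_zero hx.ne' hi⟩
  rcases le_total 0 (V2 N G (PP (fun l => x * b l))) with h | h
  · exact no_bad hG hcard 1 (Or.inl rfl) (fun l => x * b l)
      ⟨hn, hn', w1, by rw [w0]; simp, by linarith⟩
  · exact no_bad hG hcard (-1) (Or.inr rfl) (fun l => x * b l)
      ⟨hn, hn', w1, by rw [w0]; simp, by linarith⟩

lemma no_double_root (hG : Gen N G) (hcard : Fintype.card ι = N + 1) (b : ι → ℝ)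
    (hb : ∀ i, 0 ≤ b i) (hb' : ∃ i, b i ≠ 0) (x : ℝ)
    (h1 : (fP (N + 2) G (PP b)).eval x = 0)
    (h2 : (derivative (fP (N + 2) G (PP b))).eval x = 0) : False := by
  rcases lt_trichotomy x 0 with hx | hx | hx
  · refine no_double_root_pos hG.neg hcard b hb hb' (-x) (by linarith) ?_ ?_
    · rw [fP_symm, fP_sc, fP_symm, sc_eval]
      simpa using h1
    · rw [fP_symm, fP_sc, fP_symm, sc_deriv, eval_mul, sc_eval]
      simpa using h2
  · rw [hx, ← coeff_zero_eq_eval_zero, fP_coeff_zero hG.c0] at h1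
    norm_num at h1
  · exact no_double_root_pos hG hcard b hb hb' x hx h1 h2

lemma ones_splits (hG : Gen N G) (hcard : Fintype.card ι = N + 1) :
    (fP (N + 2) G (PP (fun _ : ι => (1 : ℝ)))).Splits := by
  set Q : ℝ[X] := (1 - C 1 * X) ^ (N + 2) with hQ
  have hPQ : PP (fun _ : ι => (1 : ℝ)) = Q - X * derivative Q := by
    rw [PP, prod_const, card_univ, hcard, sum_const, card_univ, hcard, hQ, derivative_pow]
    simp only [derivative_sub, derivative_one, derivative_C_mul, derivative_X,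
      nsmul_eq_mul, mul_one, map_natCast]
    rw [show N + 2 - 1 = N + 1 by omega]
    push_cast
    simp only [C_1, map_add, map_natCast]
    ring
  rw [hPQ, fP_euler _ _ _ hG.c1]
  have hQ0 : Q.coeff 0 = 1 := by rw [coeff_zero_eq_eval_zero, hQ]; simp
  have hQne : Q ≠ 0 := by intro h; rw [h] at hQ0; simp at hQ0
  apply comp_splits' (N + 2) G Q hG.sp hG.dg.le ((lin_splits 1).pow _)
  · intro ρ hρ
    rw [mem_roots hQne, IsRoot.def, hQ, eval_pow] at hρ
    have h3 := pow_eq_zero_iff (by omega) |>.mp hρ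
    simp only [eval_sub, eval_one, eval_mul, eval_C, eval_X] at h3
    linarith
  · rw [hQ]
    refine natDegree_pow_le.trans ?_
    rw [lin_natDegree 1 one_ne_zero]; omega

lemma generic_pos (hG : Gen N G) (hcard : Fintype.card ι = N + 1) (a : ι → ℝ)
    (ha : ∀ i, 0 < a i) : (fP (N + 2) G (PP a)).Splits := by
  by_contra hcon
  set F : ℝ → ℝ[X] := fun x => fP (N + 2) G (PP (fun i => Real.exp (x * Real.log (a i)))) with hF
  have hCC : CC F := by
    have h1 : CC (fun x : ℝ => PP (fun i => Real.exp (x * Real.log (a i)))) :=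
      PP_CC (fun i x => Real.exp (x * Real.log (a i))) (fun i => by fun_prop)
    exact h1.fP _ _
  have hdeg : ∀ t, (F t).natDegree ≤ N + 2 := fun t => fP_natDegree _ _ _
  have hclosed := isClosed_splits hCC (N + 2) hdeg
  have hnotopen : ¬ IsOpen {t | (F t).Splits} := by
    intro hopen
    rcases isClopen_iff.mp ⟨hclosed, hopen⟩ with h | h
    · have h0 : (0 : ℝ) ∈ {t | (F t).Splits} := by
        show (F 0).Splits
        simp only [hF, zero_mul, Real.exp_zero]
        exact ones_splits hG hcard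
      rw [h] at h0
      exact h0
    · have h1 : (1 : ℝ) ∈ {t | (F t).Splits} := by rw [h]; trivial
      apply hcon
      have h2 : (F 1).Splits := h1
      simp only [hF, one_mul] at h2
      have : (fun i => Real.exp (Real.log (a i))) = a := by
        funext i; exact Real.exp_log (ha i)
      rwa [this] at h2
  rw [isOpen_iff_mem_nhds] at hnotopen
  push Not at hnotopen
  obtain ⟨x, hx, hx'⟩ := hnotopen
  have hx1 : (F x).Splits := hx
  have hfreq : ∃ᶠ y in 𝓝 x, ¬ (F y).Splits := by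
    rw [Filter.Frequently]
    intro h
    apply hx'
    filter_upwards [h] with y hy
    by_contra hc
    exact hy hc
  set b : ι → ℝ := fun i => Real.exp (x * Real.log (a i)) with hb
  have hbpos : ∀ i, 0 < b i := fun i => Real.exp_pos _
  have hlead : (F x).coeff (N + 2) ≠ 0 := by
    show (fP (N + 2) G (PP b)).coeff (N + 2) ≠ 0
    rw [fP_coeff, if_pos le_rfl]
    apply mul_ne_zero (mul_ne_zero ?_ (hG.cc _ (by omega) le_rfl)) (PP_top hcard b hbpos)
    rw [kap_succ_succ N N le_rfl]
    apply div_ne_zero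
    · apply neg_ne_zero.mpr
      apply mul_ne_zero (pow_ne_zero _ (by norm_num))
      positivity
    · rw [Nat.choose_self]; push_cast; positivity
  obtain ⟨z, hz, h⟩ := double_root_of_limit F (F x) (N + 2) hdeg (hdeg x) hlead
    (fun j => (hCC j).tendsto x) hfreq
  have hF0 : F x ≠ 0 := by
    intro h0; rw [h0] at hlead; simp at hlead
  have him := real_of_splits (F x) hx1 hF0 z hz
  have hz' : aeval z (derivative (F x)) = 0 := h.resolve_left (fun h => h him)
  obtain ⟨y, rfl⟩ : ∃ y : ℝ, z = y := ⟨z.re, by apply Complex.ext <;> simp [him]⟩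
  rw [aeval_real] at hz hz'
  have hne : Nonempty ι := by
    rw [← Fintype.card_pos_iff, hcard]; omega
  obtain ⟨i0⟩ := hne
  exact no_double_root hG hcard b (fun i => (hbpos i).le) ⟨i0, (hbpos i0).ne'⟩ y
    (by exact_mod_cast hz) (by exact_mod_cast hz')

lemma generic_nonneg (hG : Gen N G) (hcard : Fintype.card ι = N + 1) (a : ι → ℝ)
    (ha : ∀ i, 0 ≤ a i) : (fP (N + 2) G (PP a)).Splits := by
  have hCC : CC (fun δ : ℝ => fP (N + 2) G (PP (fun i => a i + δ))) := by
    have h1 : CC (fun δ : ℝ => PP (fun i => a i + δ)) :=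
      PP_CC (fun i δ => a i + δ) (fun i => by fun_prop)
    exact h1.fP _ _
  refine splits_of_tendsto (l := 𝓝[>] (0 : ℝ)) (fun δ => fP (N + 2) G (PP (fun i => a i + δ))) _
    ?_ ?_
  · filter_upwards [self_mem_nhdsWithin] with δ hδ
    exact generic_pos hG hcard _ (fun i => by have := ha i; have h2 : 0 < δ := hδ; linarith)
  · intro z
    have h1 := ((hCC.aeval (N + 2) (fun _ => fP_natDegree _ _ _) z).tendsto 0).mono_left
      (nhdsWithin_le_nhds (s := Set.Ioi (0 : ℝ)))
    simpa using h1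

end

end Pool.Agent.H635Z
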