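import Pool.Agent.H635Z.J

set_option autoImplicit false

open Polynomial Finset Filter Topology

namespace Pool.Agent.H635Z

/-- product of `1 - c X` -/
noncomputable def LP {κ : Type*} (s : Finset κ) (c : κ → ℝ) : ℝ[X] := ∏ i ∈ s, (1 - C (c i) * X)

lemma LP_insert {κ : Type*} [DecidableEq κ] (s : Finset κ) (c : κ → ℝ) (i : κ) (hi : i ∉ s) :
    LP (insert i s) c = (1 - C (c i) * X) * LP s c := by
  unfold LP; rw [prod_insert hi]

lemma LP_coeff_zero {κ : Type*} (s : Finset κ) (c : κ → ℝ) : (LP s c).coeff 0 = 1 := by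
  unfold LP
  rw [coeff_zero_eq_eval_zero]; simp [eval_prod]

lemma lin_mul_coeff (b : ℝ) (Q : ℝ[X]) (j : ℕ) :
    ((1 - C b * X) * Q).coeff (j + 1) = Q.coeff (j + 1) - b * Q.coeff j := by
  rw [sub_mul, one_mul, coeff_sub, mul_assoc, coeff_C_mul, coeff_X_mul]

lemma lin_mul_coeff_zero (b : ℝ) (Q : ℝ[X]) :
    ((1 - C b * X) * Q).coeff 0 = Q.coeff 0 := by
  rw [sub_mul, one_mul, coeff_sub, mul_assoc, coeff_C_mul, coeff_X_mul_zero]; ring

lemma LP_coeff_one {κ : Type*} (s : Finset κ) (c : κ → ℝ) :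
    (LP s c).coeff 1 = -∑ i ∈ s, c i := by
  classical
  induction s using Finset.induction_on with
  | empty => unfold LP; simp [coeff_one]
  | insert i s hi ih =>
    rw [LP_insert s c i hi, lin_mul_coeff, ih, LP_coeff_zero, sum_insert hi]; ring

/-- sign of the coefficients for positive parameters -/
lemma LP_sign {κ : Type*} (s : Finset κ) (c : κ → ℝ) (hc : ∀ i ∈ s, 0 < c i) (j : ℕ) :
    0 ≤ (-1) ^ j * (LP s c).coeff j ∧ (j ≤ s.card → 0 < (-1) ^ j * (LP s c).coeff j) := by
  classical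
  induction s using Finset.induction_on generalizing j with
  | empty =>
    unfold LP
    rcases j with _ | j
    · simp
    · simp [coeff_one]
  | insert i s hi ih =>
    have ih' := fun j => ih (fun l hl => hc l (mem_insert_of_mem hl)) j
    have hci := hc i (mem_insert_self i s)
    rw [LP_insert s c i hi, card_insert_of_notMem hi]
    rcases j with _ | j
    · rw [lin_mul_coeff_zero, LP_coeff_zero]; simp
    · rw [lin_mul_coeff]
      have e : (-1 : ℝ) ^ (j + 1) * ((LP s c).coeff (j + 1) - c i * (LP s c).coeff j) =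
          (-1) ^ (j + 1) * (LP s c).coeff (j + 1) + c i * ((-1) ^ j * (LP s c).coeff j) := by
        rw [pow_succ]; ring
      rw [e]
      refine ⟨add_nonneg (ih' _).1 (mul_nonneg hci.le (ih' _).1), fun hj => ?_⟩
      have := mul_pos hci ((ih' j).2 (by omega))
      have := (ih' (j + 1)).1
      linarith

lemma PP_coeff_ne {ι : Type*} [Fintype ι] [DecidableEq ι] {N : ℕ}
    (hcard : Fintype.card ι = N + 1) (a : ι → ℝ) (ha : ∀ i, 0 < a i) (i : ℕ) (h2 : 2 ≤ i)
    (hi : i ≤ N + 2) : (PP a).coeff i ≠ 0 := by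
  obtain ⟨j, rfl⟩ : ∃ j, i = j + 2 := ⟨i - 2, by omega⟩
  have hj : j ≤ N := by omega
  have h3 : (dX (PP a)).coeff j ≠ 0 := by
    rw [dX_PP, coeff_neg, finsetSum_coeff]
    apply neg_ne_zero.mpr
    intro h0
    have hne : Nonempty ι := by
      rw [← Fintype.card_pos_iff, hcard]; omega
    have hpos : 0 < ∑ b, (-1) ^ j * (C (a b * (a b + ∑ j, a j)) * Om a b).coeff j := by
      apply sum_pos _ univ_nonempty
      intro l _
      rw [coeff_C_mul]
      have h4 := (LP_sign (univ.erase l) a (fun l _ => ha l) j).2 (by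
        rw [card_erase_of_mem (mem_univ l), card_univ, hcard]; omega)
      have h5 : 0 < a l * (a l + ∑ j, a j) :=
        mul_pos (ha l) (add_pos (ha l) (sum_pos (fun i _ => ha i) univ_nonempty))
      have : (-1 : ℝ) ^ j * (a l * (a l + ∑ j, a j) * (Om a l).coeff j) =
          (a l * (a l + ∑ j, a j)) * ((-1) ^ j * (LP (univ.erase l) a).coeff j) := by
        rw [show Om a l = LP (univ.erase l) a from rfl]; ring
      rw [this]
      exact mul_pos h5 h4
    rw [← mul_sum, h0, mul_zero] at hpos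
    exact lt_irrefl _ hpos
  intro h0
  rw [dX_coeff, h0, zero_mul] at h3
  exact h3 rfl

/-- coefficients of a linear deformation are polynomials in the parameter -/
lemma deform {κ : Type*} (s : Finset κ) (r v : κ → ℝ) (i : ℕ) : ∃ p : ℝ[X], p.natDegree ≤ i ∧
    (∀ ε : ℝ, (LP s (fun l => r l + ε * v l)).coeff i = p.eval ε) ∧
    p.coeff i = (LP s v).coeff i := by
  classical
  induction s using Finset.induction_on generalizing i with
  | empty =>
    refine ⟨C ((1 : ℝ[X]).coeff i), by simp, fun ε => by unfold LP; simp, ?_⟩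
    unfold LP
    rcases i with _ | i
    · simp
    · simp [coeff_one, coeff_C]
  | insert l s hl ih =>
    rcases i with _ | i
    · refine ⟨1, by simp, fun ε => by rw [LP_coeff_zero]; simp, by rw [LP_coeff_zero]; simp⟩
    · obtain ⟨p, hp1, hp2, hp3⟩ := ih (i + 1)
      obtain ⟨q, hq1, hq2, hq3⟩ := ih i
      refine ⟨p - (C (r l) + C (v l) * X) * q, ?_, ?_, ?_⟩
      · refine (natDegree_sub_le _ _).trans (max_le hp1 ?_)
        refine natDegree_mul_le.trans ?_
        have : (C (r l) + C (v l) * X : ℝ[X]).natDegree ≤ 1 := by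
          refine (natDegree_add_le _ _).trans ?_
          simp only [natDegree_C, zero_le, sup_of_le_right]
          exact (natDegree_C_mul_le _ _).trans natDegree_X_le
        omega
      · intro ε
        rw [LP_insert _ _ _ hl, lin_mul_coeff, hp2, hq2]
        simp only [eval_sub, eval_mul, eval_add, eval_C, eval_X]
        ring
      · rw [LP_insert _ _ _ hl, lin_mul_coeff, coeff_sub, hp3, add_mul, coeff_add, coeff_C_mul,
          mul_assoc, coeff_C_mul, coeff_X_mul, hq3]
        have : q.coeff (i + 1) = 0 := coeff_eq_zero_of_natDegree_lt (by omega)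
        rw [this]; ring

lemma ev_ne (p : ℝ[X]) (hp : p ≠ 0) : ∀ᶠ ε in 𝓝[≠] (0 : ℝ), p.eval ε ≠ 0 := by
  have hfin : (p.roots.toFinset : Set ℝ).Finite := finite_toSet _
  have h1 : ((p.roots.toFinset : Set ℝ) \ {0})ᶜ ∈ 𝓝 (0 : ℝ) := by
    apply IsOpen.mem_nhds
    · exact (hfin.subset Set.sdiff_subset).isClosed.isOpen_compl
    · simp
  filter_upwards [nhdsWithin_le_nhds h1, self_mem_nhdsWithin] with ε h2 h3 h4
  apply h2
  refine ⟨?_, h3⟩
  rw [mem_coe, Multiset.mem_toFinset, mem_roots hp]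
  exact h4

lemma ev_aff (x y : ℝ) (hy : y ≠ 0) : ∀ᶠ ε in 𝓝[≠] (0 : ℝ), x + ε * y ≠ 0 := by
  have hp : (C x + C y * X : ℝ[X]) ≠ 0 := by
    intro h
    have := congrArg (fun P => P.coeff 1) h
    simp at this
    exact hy this
  filter_upwards [ev_ne _ hp] with ε h
  rw [eval_add, eval_mul, eval_C, eval_C, eval_X, mul_comm] at h
  exact h

lemma LP_smp {κ : Type*} [DecidableEq κ] (s : Finset κ) (c : κ → ℝ)
    (hinj : ∀ i ∈ s, ∀ j ∈ s, i ≠ j → c i ≠ c j) : Smp (LP s c) := by
  intro t ht hd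
  unfold LP at ht hd
  rw [eval_prod, prod_eq_zero_iff] at ht
  obtain ⟨i, hi, h0⟩ := ht
  have h0' : c i * t = 1 := by
    simp only [eval_sub, eval_one, eval_mul, eval_C, eval_X] at h0
    linarith
  have hci : c i ≠ 0 := by rintro h; rw [h] at h0'; simp at h0'
  have ht0 : t ≠ 0 := by rintro h; rw [h] at h0'; simp at h0'
  rw [derivative_prod_finset, eval_finsetSum] at hd
  rw [sum_eq_single i] at hd
  · rw [eval_mul, eval_prod] at hd
    rcases mul_eq_zero.mp hd with h | h
    · rw [prod_eq_zero_iff] at h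
      obtain ⟨j, hj, hj0⟩ := h
      have hj' : c j * t = 1 := by
        simp only [eval_sub, eval_one, eval_mul, eval_C, eval_X] at hj0
        linarith
      have hji : j ≠ i := (mem_erase.mp hj).1
      apply hinj i hi j (mem_of_mem_erase hj) hji.symm
      apply mul_right_cancel₀ ht0
      rw [h0', hj']
    · simp at h
      exact hci h
  · intro j hj hji
    rw [eval_mul, eval_prod, prod_eq_zero (mem_erase.mpr ⟨hji.symm, hi⟩) h0, zero_mul]
  · intro h; exact absurd hi h

/-- generic approximation -/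
lemma generic_approx (N : ℕ) (r : Option (Fin (N + 1)) → ℝ) (hr : ∑ o, r o = 0) :
    ∃ v : Option (Fin (N + 1)) → ℝ, ∀ᶠ ε in 𝓝[≠] (0 : ℝ),
      Gen N (LP univ (fun o => r o + ε * v o)) := by
  classical
  let a : Fin (N + 1) → ℝ := fun i => (i : ℕ) + 1
  have ha : ∀ i, 0 < a i := fun i => by positivity
  let v : Option (Fin (N + 1)) → ℝ := fun o => o.elim (-∑ i, a i) a
  have hv0 : ∑ o, v o = 0 := by
    rw [Fintype.sum_option]
    show -∑ i, a i + ∑ i, a i = 0
    ring
  have hA : 0 < ∑ i, a i := sum_pos (fun i _ => ha i) univ_nonempty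
  have hvinj : ∀ o o' : Option (Fin (N + 1)), o ≠ o' → v o - v o' ≠ 0 := by
    intro o o' hoo
    rcases o with _ | i <;> rcases o' with _ | j
    · exact absurd rfl hoo
    · show -∑ i, a i - a j ≠ 0
      have := ha j
      linarith
    · show a i - -∑ i, a i ≠ 0
      have := ha i
      linarith
    · show ((i : ℕ) : ℝ) + 1 - (((j : ℕ) : ℝ) + 1) ≠ 0
      intro h
      apply hoo
      have h2 : ((i : ℕ) : ℝ) = ((j : ℕ) : ℝ) := by linarith
      have h3 : (i : ℕ) = (j : ℕ) := by exact_mod_cast h2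
      rw [Fin.ext h3]
  have hvne : ∀ o, v o ≠ 0 := by
    intro o
    rcases o with _ | i
    · show -∑ i, a i ≠ 0
      linarith
    · exact (ha i).ne'
  have hLP : LP univ v = PP a := by
    unfold LP PP
    rw [Fintype.prod_option, mul_comm]
    congr 1
    show (1 - C (-∑ i, a i) * X : ℝ[X]) = 1 + C (∑ i, a i) * X
    simp
  refine ⟨v, ?_⟩
  have h1 : ∀ᶠ ε in 𝓝[≠] (0 : ℝ), ∀ o, r o + ε * v o ≠ 0 := by
    rw [eventually_all]
    intro o
    exact ev_aff _ _ (hvne o)
  have h2 : ∀ᶠ ε in 𝓝[≠] (0 : ℝ), ∀ o o', o ≠ o' → (r o - r o') + ε * (v o - v o') ≠ 0 := by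
    rw [eventually_all]
    intro o
    rw [eventually_all]
    intro o'
    by_cases h : o = o'
    · exact Eventually.of_forall (fun _ hne => absurd h hne)
    · filter_upwards [ev_aff (r o - r o') _ (hvinj o o' h)] with ε hε _ using hε
  have h3 : ∀ᶠ ε in 𝓝[≠] (0 : ℝ), ∀ i : Fin (N + 3), 2 ≤ (i : ℕ) →
      (LP univ (fun o => r o + ε * v o)).coeff (i : ℕ) ≠ 0 := by
    rw [eventually_all]
    intro i
    by_cases hi : 2 ≤ (i : ℕ)
    · obtain ⟨p, hp1, hp2, hp3⟩ := deform (univ : Finset (Option (Fin (N + 1)))) r v (i : ℕ)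
      have hp0 : p ≠ 0 := by
        intro h
        rw [h, coeff_zero, hLP] at hp3
        exact PP_coeff_ne (N := N) (by simp) a ha (i : ℕ) hi (by have := i.isLt; omega) hp3.symm
      filter_upwards [ev_ne p hp0] with ε hε _
      rw [hp2]
      exact hε
    · exact Eventually.of_forall (fun _ h => absurd h hi)
  filter_upwards [h1, h2, h3] with ε k1 k2 k3
  refine ⟨?_, ?_, ?_, LP_coeff_zero _ _, ?_, ?_⟩
  · unfold LP; exact Splits.prod (fun i _ => lin_splits _)
  · unfold LP
    rw [prod_natDegree univ _ (fun i _ => k1 i)]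
    simp
  · apply LP_smp
    intro o _ o' _ hoo h
    apply k2 o o' hoo
    linarith
  · rw [LP_coeff_one, sum_add_distrib, ← mul_sum, hr, hv0]; ring
  · intro i hi1 hi2
    exact k3 ⟨i, by omega⟩ hi1

/-- core theorem in reciprocal form -/
theorem core (N : ℕ) (r : Option (Fin (N + 1)) → ℝ) (hr : ∑ o, r o = 0) (a : Fin (N + 1) → ℝ)
    (ha : ∀ i, 0 ≤ a i) : (fP (N + 2) (LP univ r) (PP a)).Splits := by
  obtain ⟨v, hv⟩ := generic_approx N r hr
  have hCC : CC (fun ε : ℝ => fP (N + 2) (LP univ (fun o => r o + ε * v o)) (PP a)) := by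
    have h1 : CC (fun ε : ℝ => LP univ (fun o => r o + ε * v o)) := by
      unfold LP
      apply CC.prod
      intro o _
      exact CC.lin continuous_const (by fun_prop)
    have h2 := h1.fP (N + 2) (PP a)
    simp only [fP_symm (N + 2) (PP a)] at h2
    exact h2
  refine splits_of_tendsto (l := 𝓝[≠] (0 : ℝ))
    (fun ε => fP (N + 2) (LP univ (fun o => r o + ε * v o)) (PP a)) _ ?_ ?_
  · filter_upwards [hv] with ε hε
    exact generic_nonneg hε (by simp) a ha
  · intro z
    have h1 := ((hCC.aeval (N + 2) (fun _ => fP_natDegree _ _ _) z).tendsto 0).mono_left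
      (nhdsWithin_le_nhds (s := {0}ᶜ))
    simpa using h1

end Pool.Agent.H635Z
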