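import Pool.Agent.H635Z.K

set_option autoImplicit false

open Polynomial Finset Filter Topology

namespace Pool.Agent.H635Z

noncomputable def LM (M : Multiset ℝ) : ℝ[X] := (M.map (fun ρ => (1 - C ρ * X : ℝ[X]))).prod

lemma LM_cons (a : ℝ) (M : Multiset ℝ) : LM (a ::ₘ M) = (1 - C a * X) * LM M := by
  unfold LM; rw [Multiset.map_cons, Multiset.prod_cons]

lemma LM_add (M M' : Multiset ℝ) : LM (M + M') = LM M * LM M' := by
  unfold LM; rw [Multiset.map_add, Multiset.prod_add]

lemma LM_ne_zero (M : Multiset ℝ) : LM M ≠ 0 := by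
  induction M using Multiset.induction_on with
  | empty => simp [LM]
  | cons a M ih => rw [LM_cons]; exact mul_ne_zero (lin_ne_zero a) ih

lemma LM_natDegree (M : Multiset ℝ) (h : ∀ a ∈ M, a ≠ 0) :
    (LM M).natDegree = Multiset.card M := by
  induction M using Multiset.induction_on with
  | empty => simp [LM]
  | cons a M ih =>
    rw [LM_cons, natDegree_mul (lin_ne_zero a) (LM_ne_zero M),
      lin_natDegree a (h a (Multiset.mem_cons_self a M)),
      ih (fun b hb => h b (Multiset.mem_cons_of_mem hb)), Multiset.card_cons, add_comm]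

lemma LM_zeros (M : Multiset ℝ) (h : ∀ a ∈ M, a = 0) : LM M = 1 := by
  induction M using Multiset.induction_on with
  | empty => simp [LM]
  | cons a M ih =>
    rw [LM_cons, ih (fun b hb => h b (Multiset.mem_cons_of_mem hb)),
      h a (Multiset.mem_cons_self a M)]
    simp

lemma sum_zeros (M : Multiset ℝ) (h : ∀ a ∈ M, a = 0) : M.sum = 0 := by
  induction M using Multiset.induction_on with
  | empty => simp
  | cons a M ih =>
    rw [Multiset.sum_cons, ih (fun b hb => h b (Multiset.mem_cons_of_mem hb)),
      h a (Multiset.mem_cons_self a M)]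
    simp

lemma exists_family {κ : Type*} [Fintype κ] (M : Multiset ℝ)
    (h : Multiset.card M = Fintype.card κ) : ∃ r : κ → ℝ, (univ : Finset κ).val.map r = M := by
  classical
  have hl : Fintype.card κ = M.toList.length := by rw [Multiset.length_toList, h]
  let e : κ ≃ Fin M.toList.length := Fintype.equivFinOfCardEq hl
  refine ⟨fun o => M.toList.get (e o), ?_⟩
  have h1 : (univ : Finset κ).val.map (fun o => M.toList.get (e o)) =
      ((univ : Finset κ).val.map e).map M.toList.get := by
    rw [Multiset.map_map]; rfl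
  rw [h1, Multiset.map_univ_val_equiv, Fin.univ_val_map, List.ofFn_get, Multiset.coe_toList]

lemma LP_eq_LM {κ : Type*} [Fintype κ] (r : κ → ℝ) :
    LP univ r = LM ((univ : Finset κ).val.map r) := by
  unfold LP LM
  rw [Multiset.map_map]
  rfl

lemma sum_eq_family {κ : Type*} [Fintype κ] (r : κ → ℝ) :
    ∑ i, r i = ((univ : Finset κ).val.map r).sum := rfl

lemma family_PP (M : Multiset ℝ) (N : ℕ) (hsum : M.sum = 0)
    (hcard : Multiset.card M ≤ Multiset.card (M.filter (fun x => 0 ≤ x)) + 1)
    (hdeg : (LM M).natDegree ≤ N + 2) :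
    ∃ a : Fin (N + 1) → ℝ, (∀ i, 0 ≤ a i) ∧ LM M = PP a := by
  set A0 := M.filter (fun x => 0 ≤ x) with hA0
  set B := M.filter (fun x => ¬ 0 ≤ x) with hB
  have hM : A0 + B = M := Multiset.filter_add_not _ _
  have hcardB : Multiset.card B ≤ 1 := by
    have := congrArg Multiset.card hM
    rw [Multiset.card_add] at this
    omega
  set A1 := A0.filter (fun x => 0 < x) with hA1
  set Z := A0.filter (fun x => ¬ 0 < x) with hZ
  have hA : A1 + Z = A0 := Multiset.filter_add_not _ _
  have hA0n : ∀ x ∈ A0, 0 ≤ x := fun x hx => (Multiset.mem_filter.mp hx).2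
  have hA1p : ∀ x ∈ A1, 0 < x := fun x hx => (Multiset.mem_filter.mp hx).2
  have hZ0 : ∀ x ∈ Z, x = 0 := by
    intro x hx
    have h1 := Multiset.mem_filter.mp hx
    have h2 := hA0n x h1.1
    have h3 := h1.2
    push Not at h3
    linarith
  have hLM : LM M = LM A1 * LM B := by
    rw [← hM, LM_add, ← hA, LM_add, LM_zeros Z hZ0, mul_one]
  have hs : M.sum = A1.sum + B.sum := by
    rw [← hM, Multiset.sum_add, ← hA, Multiset.sum_add, sum_zeros Z hZ0, add_zero]
  have hA1s : 0 ≤ A1.sum := Multiset.sum_nonneg (fun x hx => (hA1p x hx).le)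
  rcases Nat.eq_zero_or_pos (Multiset.card B) with h0 | h0
  · have hB0 : B = 0 := Multiset.card_eq_zero.mp h0
    rw [hsum, hB0, Multiset.sum_zero, add_zero] at hs
    have hA10 : A1 = 0 := by
      by_contra hne
      obtain ⟨x, hx⟩ := Multiset.exists_mem_of_ne_zero hne
      have := Multiset.single_le_sum (fun y hy => (hA1p y hy).le) x hx
      have := hA1p x hx
      linarith
    refine ⟨fun _ => 0, fun _ => le_rfl, ?_⟩
    rw [hLM, hA10, hB0]
    simp [LM, PP]
  · have hB1 : Multiset.card B = 1 := by omega
    obtain ⟨b, hb⟩ := Multiset.card_eq_one.mp hB1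
    have hbneg : b < 0 := by
      have : b ∈ B := by rw [hb]; simp
      have := (Multiset.mem_filter.mp this).2
      push Not at this
      exact this
    have hA1d : Multiset.card A1 ≤ N + 1 := by
      have h1 : (LM M).natDegree = Multiset.card A1 + 1 := by
        rw [hLM, natDegree_mul (LM_ne_zero _) (LM_ne_zero _),
          LM_natDegree A1 (fun x hx => (hA1p x hx).ne'), LM_natDegree B (fun x hx => by
            rw [hb, Multiset.mem_singleton] at hx; rw [hx]; exact hbneg.ne), hB1]
      omega
    obtain ⟨a, ha⟩ := exists_family (κ := Fin (N + 1))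
      (A1 + Multiset.replicate (N + 1 - Multiset.card A1) 0) (by
        rw [Multiset.card_add, Multiset.card_replicate, Fintype.card_fin]; omega)
    refine ⟨a, ?_, ?_⟩
    · intro i
      have h1 : a i ∈ (univ : Finset (Fin (N + 1))).val.map a :=
        Multiset.mem_map_of_mem a (mem_univ i)
      rw [ha, Multiset.mem_add] at h1
      rcases h1 with h1 | h1
      · exact (hA1p _ h1).le
      · rw [Multiset.eq_of_mem_replicate h1]
    · have h1 : (∏ i, (1 - C (a i) * X) : ℝ[X]) = LM A1 := by
        have := LP_eq_LM a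
        rw [ha, LM_add, LM_zeros (Multiset.replicate _ _)
          (fun x hx => Multiset.eq_of_mem_replicate hx), mul_one] at this
        exact this
      have h2 : ∑ i, a i = A1.sum := by
        rw [sum_eq_family, ha, Multiset.sum_add, Multiset.sum_replicate]; simp
      have h3 : A1.sum = -b := by
        rw [hsum, hb, Multiset.sum_singleton] at hs; linarith
      rw [PP, h1, h2, h3, hLM, hb]
      congr 1
      simp [LM]
      ring

lemma reflect_lin (a : ℝ) : reflect 1 (X - C a : ℝ[X]) = 1 - C a * X := by
  ext k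
  rw [coeff_reflect]
  rcases k with _ | _ | k
  · rw [show revAt 1 0 = 1 by rw [revAt_le (by omega)]]
    simp [coeff_X, coeff_C]
  · rw [show revAt 1 (0 + 1) = 0 by rw [revAt_le (by omega)]]
    simp [coeff_one]
  · have : revAt 1 (k + 1 + 1) = k + 1 + 1 := revAt_eq_self_of_lt (by omega)
    rw [this]
    simp [coeff_X, coeff_C, coeff_one]

lemma reflect_LM (M : Multiset ℝ) :
    reflect (Multiset.card M) ((M.map (fun a => (X - C a : ℝ[X]))).prod) = LM M := by
  induction M using Multiset.induction_on with
  | empty => simp [LM, reflect_one]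
  | cons a M ih =>
    rw [Multiset.map_cons, Multiset.prod_cons, LM_cons, Multiset.card_cons, add_comm,
      reflect_mul _ _ (by rw [natDegree_X_sub_C]) (by
        rw [natDegree_multiset_prod_X_sub_C_eq_card]), ih, reflect_lin]

lemma splits_reflect (m : ℕ) (F : ℝ[X]) (hF : F.Splits) (hd : F.natDegree ≤ m) :
    (reflect m F).Splits := by
  by_cases h0 : F = 0
  · rw [h0, reflect_zero]; exact Splits.zero
  apply splits_of_real
  intro z hz
  by_cases hz0 : z = 0
  · rw [hz0]; simp
  have hinv : Invertible (z⁻¹) := invertibleOfNonzero (inv_ne_zero hz0)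
  have h1 := eval₂_reflect_mul_pow (algebraMap ℝ ℂ) z⁻¹ m F hd
  rw [invOf_eq_inv, inv_inv] at h1
  rw [aeval_def] at hz
  rw [hz, zero_mul] at h1
  have h2 := real_of_splits F hF h0 z⁻¹ h1.symm
  rw [Complex.inv_im] at h2
  have h3 : Complex.normSq z ≠ 0 := by simpa [Complex.normSq_eq_zero] using hz0
  rcases div_eq_zero_iff.mp h2 with h | h
  · linarith
  · exact absurd h h3

lemma sc_LM (M : Multiset ℝ) : sc (-1) (LM M) = LM (M.map (fun x => -x)) := by
  induction M using Multiset.induction_on with
  | empty => simp [LM, sc]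
  | cons a M ih =>
    rw [Multiset.map_cons, LM_cons, LM_cons, ← ih]
    unfold sc
    rw [mul_comp]
    congr 1
    simp

lemma comp_symm (N : ℕ) (W r : ℝ[X]) : comp N W r = comp N r W := by
  ext k
  rw [comp_coeff, comp_coeff]
  split_ifs <;> ring

/-- the bilinear form with an arbitrary real-rooted first entry -/
lemma fP_splits (N : ℕ) (g : ℝ[X]) (hg : g.Splits) (hgd : g.natDegree ≤ N + 2)
    (hg1 : g.coeff (N + 1) = 0) (a : Fin (N + 1) → ℝ) (ha : ∀ i, 0 ≤ a i) :
    (fP (N + 2) (reflect (N + 2) g) (PP a)).Splits := by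
  by_cases h0 : g = 0
  · have : fP (N + 2) (reflect (N + 2) g) (PP a) = 0 := by
      rw [h0, reflect_zero]; ext k; rw [fP_coeff]; simp
    rw [this]; exact Splits.zero
  by_cases hd : g.natDegree = N + 2
  · obtain ⟨r, hr⟩ := exists_family (κ := Option (Fin (N + 1))) g.roots (by
      rw [← hg.natDegree_eq_card_roots, hd]; simp)
    have hrs : ∑ o, r o = 0 := by
      rw [sum_eq_family, hr]
      have h1 := hg.nextCoeff_eq_neg_sum_roots_mul_leadingCoeff
      have h2 : g.nextCoeff = 0 := by
        rw [nextCoeff_of_natDegree_pos (by omega), hd]; exact hg1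
      rw [h2] at h1
      have h3 : g.leadingCoeff ≠ 0 := leadingCoeff_ne_zero.mpr h0
      have h4 : g.leadingCoeff * g.roots.sum = 0 := by linarith
      exact (mul_eq_zero.mp h4).resolve_left h3
    have h1 : reflect (N + 2) g = C g.leadingCoeff * LP univ r := by
      conv_lhs => rw [hg.eq_prod_roots]
      rw [reflect_C_mul, LP_eq_LM, hr, ← reflect_LM, ← hg.natDegree_eq_card_roots, hd]
    rw [h1, fP_symm, fP_C_mul, fP_symm]
    exact (core N r hrs a ha).C_mul _
  · have hd2 : g.natDegree ≤ N := by
      by_contra hcon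
      have h1 : g.natDegree = N + 1 := by omega
      have h2 : g.leadingCoeff = 0 := by rw [leadingCoeff, h1]; exact hg1
      exact h0 (leadingCoeff_eq_zero.mp h2)
    have h1 : reflect (N + 2) g = X ^ 2 * reflect N g := by
      ext k
      rw [coeff_reflect, mul_comm, coeff_mul_X_pow']
      by_cases hk : 2 ≤ k
      · rw [if_pos hk, coeff_reflect]
        by_cases hk2 : k ≤ N + 2
        · rw [revAt_le hk2, revAt_le (by omega)]
          congr 1
          omega
        · rw [revAt_eq_self_of_lt (by omega), revAt_eq_self_of_lt (by omega),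
            coeff_eq_zero_of_natDegree_lt (by omega), coeff_eq_zero_of_natDegree_lt (by omega)]
      · rw [if_neg hk, revAt_le (by omega)]
        exact coeff_eq_zero_of_natDegree_lt (by omega)
    rw [h1, fP_symm, fP_X2, comp_symm]
    apply Splits.C_mul
    apply (Splits.X_pow 2).mul
    by_cases hne : ∃ i, a i ≠ 0
    · apply comp_splits' N _ _ (splits_reflect N g hg hd2)
      · rw [natDegree_le_iff_coeff_eq_zero]
        intro k hk
        rw [coeff_reflect, revAt_eq_self_of_lt hk]
        exact coeff_eq_zero_of_natDegree_lt (by omega)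
      · exact dX_splits _ (PP_coeff_one a) (PP_splits a)
      · exact dX_PP_roots a ha hne
      · apply dX_natDegree
        have := PP_natDegree a
        simpa using this
    · push Not at hne
      have h2 : dX (PP a) = 0 := by
        rw [dX_PP]
        simp [hne]
      have h3 : comp N (reflect N g) (dX (PP a)) = 0 := by
        ext k; rw [comp_coeff, h2]; simp
      rw [h3]; exact Splits.zero

end Pool.Agent.H635Z
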